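import Mathlib

set_option autoImplicit false

namespace Pool.Agent.Helper24.BarVis

/-- A bar: the closed horizontal segment `[l, r] × {y}` of positive length in the plane. -/
structure Bar where
  l : ℝ
  r : ℝ
  y : ℝ
  l_lt_r : l < r

/-- The points of a bar. -/
def Bar.pts (b : Bar) : Set (ℝ × ℝ) := Set.Icc b.l b.r ×ˢ {b.y}

/-- There is an axis-parallel rectangle `[x₁, x₂] × [y₁, y₂]` of positive width whose bottom side
lies in the bar of `u`, whose top side lies in the bar of `v`, and whose interior meets at most `k`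
bars other than those of `u` and `v`. -/
def Sees {V : Type} (k : ℕ) (b : V → Bar) (u v : V) : Prop :=
  ∃ x₁ x₂ y₁ y₂ : ℝ, x₁ < x₂ ∧ y₁ < y₂ ∧
    Set.Icc x₁ x₂ ×ˢ {y₁} ⊆ (b u).pts ∧
    Set.Icc x₁ x₂ ×ˢ {y₂} ⊆ (b v).pts ∧
    {w : V | w ≠ u ∧ w ≠ v ∧
      ((b w).pts ∩ (Set.Ioo x₁ x₂ ×ˢ Set.Ioo y₁ y₂)).Nonempty}.encard ≤ k

/-- `b` is a bar `k`-visibility representation of `G`. -/
structure IsRep {V : Type} (k : ℕ) (G : SimpleGraph V) (b : V → Bar) : Prop where
  disjoint : ∀ u v : V, u ≠ v → Disjoint (b u).pts (b v).pts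
  adj_iff : ∀ u v : V, G.Adj u v ↔ u ≠ v ∧ (Sees k b u v ∨ Sees k b v u)

/-- `G` is a bar `k`-visibility graph. -/
def IsBarVisibilityGraph {V : Type} (k : ℕ) (G : SimpleGraph V) : Prop :=
  ∃ b : V → Bar, IsRep k G b

/-- The numbers of edges of the bar `k`-visibility graphs on `n` vertices. -/
def edgeCounts (k n : ℕ) : Set ℕ :=
  {m | ∃ G : SimpleGraph (Fin n), IsBarVisibilityGraph k G ∧ G.edgeSet.ncard = m}

end Pool.Agent.Helper24.BarVis
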