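import Pool.Agent.Helper24.BarDefs

set_option autoImplicit false
set_option linter.unnecessarySeqFocus false

namespace Pool.Agent.Helper24.BarVis

open Finset

/-- left ends -/
def lf (k i : ℕ) : ℤ :=
  if i < k + 1 then 0
  else if i < 2 * (k + 1) then (i : ℤ) + 1
  else if i < 3 * (k + 1) then (i : ℤ) - 2 * (k + 1) + 1
  else if i < 4 * (k + 1) then (i : ℤ) - (k + 1) + 1
  else 2 * (i : ℤ) - 4 * (k + 1) + 1

/-- right ends -/
def rt (k n i : ℕ) : ℤ :=
  if i < k + 1 then 4 * ((k : ℤ) + 1) - i
  else if i < 2 * (k + 1) then 4 * ((k : ℤ) + 1) + 2 * n + (k + 1) + 2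
  else if i < 3 * (k + 1) then 4 * ((k : ℤ) + 1) + 2 * n + 3 * (k + 1) - i
  else 2 * (i : ℤ) - 2 * (k + 1) + 2

/-- heights -/
def ht (k n i : ℕ) : ℤ :=
  if i < k + 1 then ((k : ℤ) + 1) - 1 - i
  else if i < 2 * (k + 1) then (i : ℤ) - n - 2 * (k + 1)
  else if i < 3 * (k + 1) then 4 * ((k : ℤ) + 1) - 1 - i
  else 3 * ((k : ℤ) + 1) - 1 - i

lemma lf_lt_rt (k n i : ℕ) (hi : i < n) : lf k i < rt k n i := by
  unfold lf rt
  split_ifs <;> omega

lemma ht_inj (k n i j : ℕ) (hi : i < n) (hj : j < n) (h : ht k n i = ht k n j) : i = j := by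
  unfold ht at h
  split_ifs at h <;> omega

noncomputable def bars (k n : ℕ) (i : Fin n) : Bar where
  l := (lf k i : ℝ)
  r := (rt k n i : ℝ)
  y := (ht k n i : ℝ)
  l_lt_r := by exact_mod_cast lf_lt_rt k n i i.2

lemma bars_disjoint (k n : ℕ) (u v : Fin n) (h : u ≠ v) :
    Disjoint (bars k n u).pts (bars k n v).pts := by
  rw [Set.disjoint_left]
  rintro ⟨x, y⟩ hu hv
  simp only [Bar.pts, Set.mem_prod, Set.mem_singleton_iff, bars] at hu hv
  apply h
  apply Fin.ext
  apply ht_inj k n u v u.2 v.2
  have := hu.2.symm.trans hv.2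
  exact_mod_cast this

lemma slot (k n : ℕ) (u v : Fin n) (c : ℤ) (lo : ℕ) (huv : ht k n u < ht k n v)
    (hu1 : lf k u ≤ c) (hu2 : c < rt k n u) (hv1 : lf k v ≤ c) (hv2 : c < rt k n v)
    (h : ∀ w : ℕ, w < n → ht k n u < ht k n w → ht k n w < ht k n v → lf k w ≤ c → c < rt k n w →
      lo ≤ w ∧ w < lo + k) :
    Sees k (bars k n) u v := by
  have hu2' : c + 1 ≤ rt k n u := hu2
  have hv2' : c + 1 ≤ rt k n v := hv2
  refine ⟨(c : ℝ), (c : ℝ) + 1, (ht k n u : ℝ), (ht k n v : ℝ), by linarith,
    by exact_mod_cast huv, ?_, ?_, ?_⟩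
  · rintro ⟨x, y⟩ hx
    simp only [Set.mem_prod, Set.mem_Icc, Set.mem_singleton_iff] at hx
    simp only [Bar.pts, bars, Set.mem_prod, Set.mem_Icc, Set.mem_singleton_iff]
    have h1 : (lf k u : ℝ) ≤ c := by exact_mod_cast hu1
    have h2 : (c : ℝ) + 1 ≤ rt k n u := by exact_mod_cast hu2'
    exact ⟨⟨by linarith [hx.1.1], by linarith [hx.1.2]⟩, hx.2⟩
  · rintro ⟨x, y⟩ hx
    simp only [Set.mem_prod, Set.mem_Icc, Set.mem_singleton_iff] at hx
    simp only [Bar.pts, bars, Set.mem_prod, Set.mem_Icc, Set.mem_singleton_iff]
    have h1 : (lf k v : ℝ) ≤ c := by exact_mod_cast hv1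
    have h2 : (c : ℝ) + 1 ≤ rt k n v := by exact_mod_cast hv2'
    exact ⟨⟨by linarith [hx.1.1], by linarith [hx.1.2]⟩, hx.2⟩
  · have hsub : {w : Fin n | w ≠ u ∧ w ≠ v ∧
        ((bars k n w).pts ∩ (Set.Ioo (c : ℝ) (c + 1) ×ˢ
          Set.Ioo (ht k n u : ℝ) (ht k n v))).Nonempty} ⊆
        ((Finset.univ.filter (fun w : Fin n => lo ≤ w.1 ∧ w.1 < lo + k) : Finset (Fin n)) :
          Set (Fin n)) := by
      rintro w ⟨-, -, ⟨x, y⟩, hxy1, hxy2⟩
      simp only [Bar.pts, bars, Set.mem_prod, Set.mem_Icc, Set.mem_singleton_iff] at hxy1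
      simp only [Set.mem_prod, Set.mem_Ioo] at hxy2
      simp only [Finset.coe_filter, Finset.mem_univ, true_and, Set.mem_ofPred_eq]
      obtain ⟨⟨h1, h2⟩, h3⟩ := hxy1
      obtain ⟨⟨h4, h5⟩, h6, h7⟩ := hxy2
      rw [h3] at h6 h7
      apply h w.1 w.2
      · exact_mod_cast h6
      · exact_mod_cast h7
      · have : (lf k w : ℝ) < c + 1 := by linarith
        have h' : lf k w < c + 1 := by exact_mod_cast this
        omega
      · have : (c : ℝ) < rt k n w := by linarith
        exact_mod_cast this
    refine (Set.encard_le_encard hsub).trans ?_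
    rw [Set.encard_coe_eq_coe_finsetCard]
    have : (Finset.univ.filter (fun w : Fin n => lo ≤ w.1 ∧ w.1 < lo + k)).card
        ≤ (Finset.Ico lo (lo + k)).card := by
      apply Finset.card_le_card_of_injOn (fun w => w.1)
      · intro w hw
        simpa using hw
      · intro w _ w' _ hh
        exact Fin.ext hh
    rw [Nat.card_Ico] at this
    have h2 : lo + k - lo = k := by omega
    rw [h2] at this
    exact_mod_cast this

/-- The pairs `j < i` which are certainly adjacent. -/
def Good (k j i : ℕ) : Prop :=
  j < i ∧ (i < 4 * (k + 1) ∨ (k + 1 ≤ j ∧ j < 3 * (k + 1)) ∨ i ≤ j + (k + 1))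

lemma good_sees (k n : ℕ) (j i : Fin n) (h : Good k j i) :
    Sees k (bars k n) i j ∨ Sees k (bars k n) j i := by
  obtain ⟨j, hj⟩ := j
  obtain ⟨i, hi⟩ := i
  obtain ⟨hji, h⟩ := h
  simp only at hji h
  by_cases j1 : j < k + 1
  · -- j in T
    by_cases i1 : i < k + 1
    · left
      apply slot k n _ _ 0 (j + 1)
      all_goals simp only [lf, rt, ht]
      · split_ifs <;> omega
      · split_ifs <;> omega
      · split_ifs <;> omega
      · split_ifs <;> omega
      · split_ifs <;> omega
      · intro w hw; split_ifs <;> omega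
    · by_cases i2 : i < 2 * (k + 1)
      · left
        apply slot k n _ _ ((i : ℤ) + 1) (j + 1)
        all_goals simp only [lf, rt, ht]
        · split_ifs <;> omega
        · split_ifs <;> omega
        · split_ifs <;> omega
        · split_ifs <;> omega
        · split_ifs <;> omega
        · intro w hw; split_ifs <;> omega
      · by_cases i3 : i < 3 * (k + 1)
        · right
          apply slot k n _ _ ((i : ℤ) - 2 * (k + 1) + 1) 0
          all_goals simp only [lf, rt, ht]
          · split_ifs <;> omega
          · split_ifs <;> omega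
          · split_ifs <;> omega
          · split_ifs <;> omega
          · split_ifs <;> omega
          · intro w hw; split_ifs <;> omega
        · by_cases i4 : i < 4 * (k + 1)
          · left
            apply slot k n _ _ (4 * ((k : ℤ) + 1) - 1 - j) (3 * (k + 1))
            all_goals simp only [lf, rt, ht]
            · split_ifs <;> omega
            · split_ifs <;> omega
            · split_ifs <;> omega
            · split_ifs <;> omega
            · split_ifs <;> omega
            · intro w hw; split_ifs <;> omega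
          · omega
  · by_cases j2 : j < 2 * (k + 1)
    · -- j in B
      right
      by_cases i2 : i < 2 * (k + 1)
      · apply slot k n _ _ ((i : ℤ) + 1) (j + 1)
        all_goals simp only [lf, rt, ht]
        · split_ifs <;> omega
        · split_ifs <;> omega
        · split_ifs <;> omega
        · split_ifs <;> omega
        · split_ifs <;> omega
        · intro w hw; split_ifs <;> omega
      · by_cases i3 : i < 3 * (k + 1)
        · apply slot k n _ _ (4 * ((k : ℤ) + 1) + 2 * n + 3 * (k + 1) - i - 1) (j + 1)
          all_goals simp only [lf, rt, ht]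
          · split_ifs <;> omega
          · split_ifs <;> omega
          · split_ifs <;> omega
          · split_ifs <;> omega
          · split_ifs <;> omega
          · intro w hw; split_ifs <;> omega
        · by_cases i4 : i < 4 * (k + 1)
          · apply slot k n _ _ ((i : ℤ) - (k + 1) + 1) (j + 1)
            all_goals simp only [lf, rt, ht]
            · split_ifs <;> omega
            · split_ifs <;> omega
            · split_ifs <;> omega
            · split_ifs <;> omega
            · split_ifs <;> omega
            · intro w hw; split_ifs <;> omega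
          · apply slot k n _ _ (2 * (i : ℤ) - 4 * (k + 1) + 1) (j + 1)
            all_goals simp only [lf, rt, ht]
            · split_ifs <;> omega
            · split_ifs <;> omega
            · split_ifs <;> omega
            · split_ifs <;> omega
            · split_ifs <;> omega
            · intro w hw; split_ifs <;> omega
    · left
      by_cases j3 : j < 3 * (k + 1)
      · -- j in T'
        by_cases i3 : i < 3 * (k + 1)
        · apply slot k n _ _ ((i : ℤ) - 2 * (k + 1) + 1) (j + 1)
          all_goals simp only [lf, rt, ht]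
          · split_ifs <;> omega
          · split_ifs <;> omega
          · split_ifs <;> omega
          · split_ifs <;> omega
          · split_ifs <;> omega
          · intro w hw; split_ifs <;> omega
        · apply slot k n _ _ (2 * (i : ℤ) - 2 * (k + 1)) (j + 1)
          all_goals simp only [lf, rt, ht]
          · split_ifs <;> omega
          · split_ifs <;> omega
          · split_ifs <;> omega
          · split_ifs <;> omega
          · split_ifs <;> omega
          · intro w hw; split_ifs <;> omega
      · -- both in the queue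
        by_cases i4 : i < 4 * (k + 1)
        · apply slot k n _ _ ((i : ℤ) - (k + 1) + 1) (j + 1)
          all_goals simp only [lf, rt, ht]
          · split_ifs <;> omega
          · split_ifs <;> omega
          · split_ifs <;> omega
          · split_ifs <;> omega
          · split_ifs <;> omega
          · intro w hw; split_ifs <;> omega
        · apply slot k n _ _ (2 * (i : ℤ) - 4 * (k + 1) + 1) (j + 1)
          all_goals simp only [lf, rt, ht]
          · split_ifs <;> omega
          · split_ifs <;> omega
          · split_ifs <;> omega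
          · split_ifs <;> omega
          · split_ifs <;> omega
          · intro w hw; split_ifs <;> omega

/-- The graph represented by `bars k n`. -/
def barGraph (k n : ℕ) : SimpleGraph (Fin n) where
  Adj u v := u ≠ v ∧ (Sees k (bars k n) u v ∨ Sees k (bars k n) v u)
  symm := ⟨fun _ _ h => ⟨h.1.symm, h.2.symm⟩⟩
  loopless := ⟨fun _ h => h.1 rfl⟩

lemma barGraph_isBar (k n : ℕ) : IsBarVisibilityGraph k (barGraph k n) :=
  ⟨bars k n, bars_disjoint k n, fun _ _ => Iff.rfl⟩

instance (k j i : ℕ) : Decidable (Good k j i) := by unfold Good; infer_instance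

lemma good_count (k n : ℕ) :
    (∑ i : Fin n, (Finset.univ.filter (fun j : Fin n => Good k j i)).card)
      ≤ (barGraph k n).edgeSet.ncard := by
  classical
  let F : Finset (Fin n × Fin n) := Finset.univ.filter (fun p => Good k p.2 p.1)
  have hF : F.card = ∑ i : Fin n, (Finset.univ.filter (fun j : Fin n => Good k j i)).card := by
    rw [Finset.card_eq_sum_card_fiberwise (f := fun p : Fin n × Fin n => p.1) (t := Finset.univ)
      (by intro p _; simp)]
    apply Finset.sum_congr rfl
    intro i _
    apply Finset.card_bij (fun p _ => p.2)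
    · rintro ⟨a, b⟩ h
      simp only [F, Finset.mem_filter, Finset.mem_univ, true_and] at h ⊢
      obtain ⟨h1, h2⟩ := h
      subst h2
      exact h1
    · rintro ⟨a, b⟩ h ⟨c, d⟩ h' hh
      simp only [F, Finset.mem_filter, Finset.mem_univ, true_and] at h h' hh
      obtain ⟨_, h2⟩ := h
      obtain ⟨_, h2'⟩ := h'
      subst h2; subst h2'; subst hh
      rfl
    · intro b hb
      simp only [Finset.mem_filter, Finset.mem_univ, true_and] at hb
      exact ⟨(i, b), by simp [F, hb], rfl⟩
  rw [← hF]
  have hsub : ((F.image (fun p => s(p.1, p.2)) : Finset (Sym2 (Fin n))) : Set (Sym2 (Fin n)))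
      ⊆ (barGraph k n).edgeSet := by
    intro e he
    simp only [Finset.coe_image, Set.mem_image, Finset.mem_coe, F, Finset.mem_filter,
      Finset.mem_univ, true_and] at he
    obtain ⟨⟨i, j⟩, hg, rfl⟩ := he
    rw [SimpleGraph.mem_edgeSet]
    refine ⟨?_, good_sees k n j i hg⟩
    intro h
    simp only at h hg
    subst h
    exact lt_irrefl _ hg.1
  have hcard : (F.image (fun p => s(p.1, p.2))).card = F.card := by
    apply Finset.card_image_of_injOn
    rintro ⟨i, j⟩ hp ⟨i', j'⟩ hp' hh
    simp only [F, Finset.coe_filter, Finset.mem_univ, true_and, Set.mem_ofPred_eq] at hp hp'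
    simp only [Sym2.eq_iff] at hh
    rcases hh with ⟨h1, h2⟩ | ⟨h1, h2⟩
    · rw [h1, h2]
    · exfalso
      have e1 := hp.1
      have e2 := hp'.1
      rw [h1, h2] at e1
      omega
  rw [← hcard, ← Set.ncard_coe_finset]
  exact Set.ncard_le_ncard hsub (Set.toFinite _)

lemma good_deg (k n : ℕ) (i : Fin n) :
    (if (i : ℕ) < 4 * (k + 1) then (i : ℕ) else 3 * (k + 1))
      ≤ (Finset.univ.filter (fun j : Fin n => Good k j i)).card := by
  classical
  split_ifs with h
  · have : (Finset.range (i : ℕ)).card ≤ (Finset.univ.filter (fun j : Fin n => Good k j i)).card := by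
      apply Finset.card_le_card_of_injOn (fun j => if hj : j < n then (⟨j, hj⟩ : Fin n) else i)
      · intro j hj
        simp only [Finset.coe_range, Set.mem_Iio] at hj
        have hjn : j < n := hj.trans i.2
        simp only [hjn, dif_pos, Finset.coe_filter, Finset.mem_univ, true_and, Set.mem_ofPred_eq]
        exact ⟨hj, Or.inl h⟩
      · intro j hj j' hj' hh
        simp only [Finset.coe_range, Set.mem_Iio] at hj hj'
        have hjn : j < n := hj.trans i.2
        have hjn' : j' < n := hj'.trans i.2
        simp only [hjn, hjn', dif_pos, Fin.mk.injEq] at hh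
        exact hh
    simpa using this
  · have hc : (Finset.Ico (k + 1) (3 * (k + 1)) ∪ Finset.Ico ((i : ℕ) - (k + 1)) i).card
        = 3 * (k + 1) := by
      rw [Finset.card_union_of_disjoint]
      · simp only [Nat.card_Ico]; omega
      · rw [Finset.disjoint_left]
        intro x hx hx'
        simp only [Finset.mem_Ico] at hx hx'
        omega
    rw [← hc]
    apply Finset.card_le_card_of_injOn (fun j => if hj : j < n then (⟨j, hj⟩ : Fin n) else i)
    · intro j hj
      simp only [Finset.coe_union, Finset.coe_Ico, Set.mem_union, Set.mem_Ico] at hj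
      have hji : j < i := by omega
      have hjn : j < n := hji.trans i.2
      simp only [hjn, dif_pos, Finset.coe_filter, Finset.mem_univ, true_and, Set.mem_ofPred_eq]
      exact ⟨hji, by omega⟩
    · intro j hj j' hj' hh
      simp only [Finset.coe_union, Finset.coe_Ico, Set.mem_union, Set.mem_Ico] at hj hj'
      have hjn : j < n := lt_trans (by omega) i.2
      have hjn' : j' < n := lt_trans (by omega) i.2
      simp only [hjn, hjn', dif_pos, Fin.mk.injEq] at hh
      exact hh

lemma sum_small (k n : ℕ) (hn : n ≤ 4 * (k + 1)) :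
    ∑ i ∈ Finset.range n, (if i < 4 * (k + 1) then i else 3 * (k + 1)) = n.choose 2 := by
  rw [Nat.choose_two_right, ← Finset.sum_range_id]
  apply Finset.sum_congr rfl
  intro i hi
  rw [Finset.mem_range] at hi
  rw [if_pos (by omega)]

lemma sum_large (k t : ℕ) :
    ∑ i ∈ Finset.range (4 * (k + 1) + t), (if i < 4 * (k + 1) then i else 3 * (k + 1))
      = (k + 1) * (3 * (4 * (k + 1) + t) - (4 * k + 6)) := by
  induction t with
  | zero =>
    rw [Nat.add_zero, sum_small k _ le_rfl, Nat.choose_two_right]
    have e1 : 3 * (4 * (k + 1)) - (4 * k + 6) = 8 * k + 6 := by omega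
    have e2 : 4 * (k + 1) * (4 * (k + 1) - 1) = 2 * ((k + 1) * (8 * k + 6)) := by
      have : 4 * (k + 1) - 1 = 4 * k + 3 := by omega
      rw [this]; ring
    rw [e1, e2]
    omega
  | succ t ih =>
    rw [← Nat.add_assoc, Finset.sum_range_succ, ih, if_neg (by omega)]
    have e1 : 3 * (4 * (k + 1) + t) - (4 * k + 6) = 8 * k + 6 + 3 * t := by omega
    have e2 : 3 * (4 * (k + 1) + t + 1) - (4 * k + 6) = 8 * k + 6 + 3 * t + 3 := by omega
    rw [e1, e2]
    ring

lemma lower_small (k n : ℕ) (hn : n ≤ 4 * (k + 1)) :
    n.choose 2 ≤ (barGraph k n).edgeSet.ncard := by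
  rw [← sum_small k n hn, ← Fin.sum_univ_eq_sum_range
    (fun i => if i < 4 * (k + 1) then i else 3 * (k + 1))]
  exact (Finset.sum_le_sum (fun i _ => good_deg k n i)).trans (good_count k n)

lemma lower_large (k n : ℕ) (hn : 4 * (k + 1) ≤ n) :
    (k + 1) * (3 * n - (4 * k + 6)) ≤ (barGraph k n).edgeSet.ncard := by
  obtain ⟨t, rfl⟩ := Nat.exists_eq_add_of_le hn
  rw [← sum_large k t, ← Fin.sum_univ_eq_sum_range
    (fun i => if i < 4 * (k + 1) then i else 3 * (k + 1))]
  exact (Finset.sum_le_sum (fun i _ => good_deg k _ i)).trans (good_count k _)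

end Pool.Agent.Helper24.BarVis
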