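import Pool.Agent.Helper24.BarUpper
import Pool.Agent.Helper24.BarLower

set_option autoImplicit false

namespace Pool.Agent.Helper24.BarVis

lemma ncard_le_choose (n : ℕ) (G : SimpleGraph (Fin n)) : G.edgeSet.ncard ≤ n.choose 2 := by
  classical
  have h := SimpleGraph.card_edgeFinset_le_card_choose_two (G := G)
  rw [Fintype.card_fin] at h
  rw [← SimpleGraph.coe_edgeFinset, Set.ncard_coe_finset]
  exact h

theorem small (k n : ℕ) (hn : n ≤ 4 * k + 4) : IsGreatest (edgeCounts k n) (n.choose 2) := by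
  constructor
  · refine ⟨barGraph k n, barGraph_isBar k n, ?_⟩
    exact le_antisymm (ncard_le_choose n _) (lower_small k n (by omega))
  · rintro m ⟨G, -, rfl⟩
    exact ncard_le_choose n G

theorem large (k n : ℕ) (hn : 4 * k + 4 ≤ n) :
    IsGreatest (edgeCounts k n) ((k + 1) * (3 * n - (4 * k + 6))) := by
  have hup : ∀ G : SimpleGraph (Fin n), IsBarVisibilityGraph k G →
      G.edgeSet.ncard ≤ (k + 1) * (3 * n - (4 * k + 6)) := by
    intro G hG
    have := upper k G hG (by rw [Fintype.card_fin]; omega)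
    rwa [Fintype.card_fin] at this
  constructor
  · refine ⟨barGraph k n, barGraph_isBar k n, ?_⟩
    exact le_antisymm (hup _ (barGraph_isBar k n)) (lower_large k n (by omega))
  · rintro m ⟨G, hG, rfl⟩
    exact hup G hG

theorem two (n : ℕ) (hn : 12 ≤ n) : IsGreatest (edgeCounts 2 n) (9 * n - 42) := by
  have h := large 2 n (by omega)
  have e : (2 + 1) * (3 * n - (4 * 2 + 6)) = 9 * n - 42 := by omega
  rwa [e] at h

theorem main :
    (∀ n : ℕ, 12 ≤ n → IsGreatest (edgeCounts 2 n) (9 * n - 42)) ∧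
    (∀ n : ℕ, n ≤ 12 → IsGreatest (edgeCounts 2 n) (n.choose 2)) ∧
    (∀ k n : ℕ, 4 * k + 4 ≤ n →
      IsGreatest (edgeCounts k n) ((k + 1) * (3 * n - (4 * k + 6)))) ∧
    (∀ k n : ℕ, n ≤ 4 * k + 4 → IsGreatest (edgeCounts k n) (n.choose 2)) :=
  ⟨two, fun n hn => small 2 n hn, large, small⟩

end Pool.Agent.Helper24.BarVis
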