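import Mathlib

set_option autoImplicit false
set_option linter.unusedSectionVars false

namespace Pool.Agent.Helper24.BarVis

open Finset

section Core

variable {V : Type} [DecidableEq V] (y : V → ℝ)

noncomputable def abv (S : Finset V) (u : V) : ℕ := (S.filter (fun w => y u < y w)).card
noncomputable def blw (S : Finset V) (u : V) : ℕ := (S.filter (fun w => y w < y u)).card
noncomputable def btw (S : Finset V) (u w : V) : ℕ :=
  (S.filter (fun z => y w < y z ∧ y z < y u)).card

noncomputable def Adjs (k : ℕ) (S : Finset V) : Finset (V × V) :=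
  (S ×ˢ S).filter (fun p => y p.2 < y p.1 ∧ btw y S p.1 p.2 ≤ k)

noncomputable def Outs (k : ℕ) (S : Finset V) : Finset (V × V) :=
  (S ×ˢ S).filter (fun p => y p.2 < y p.1 ∧ abv y S p.1 + blw y S p.2 ≤ k)

variable {y}

lemma abv_lt {S : Finset V} {u w : V} (hw : w ∈ S) (h : y u < y w) :
    abv y S w < abv y S u := by
  unfold abv
  apply Finset.card_lt_card
  rw [Finset.ssubset_iff_of_subset]
  · exact ⟨w, by simp [hw, h], by simp⟩
  · intro z hz
    simp only [Finset.mem_filter] at hz ⊢
    exact ⟨hz.1, h.trans hz.2⟩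

lemma blw_lt {S : Finset V} {u w : V} (hw : w ∈ S) (h : y w < y u) :
    blw y S w < blw y S u := by
  unfold blw
  apply Finset.card_lt_card
  rw [Finset.ssubset_iff_of_subset]
  · exact ⟨w, by simp [hw, h], by simp⟩
  · intro z hz
    simp only [Finset.mem_filter] at hz ⊢
    exact ⟨hz.1, hz.2.trans h⟩

lemma abv_inj {S : Finset V} (hS : Set.InjOn y S) {u w : V} (hu : u ∈ S) (hw : w ∈ S)
    (h : abv y S u = abv y S w) : u = w := by
  rcases lt_trichotomy (y u) (y w) with h1 | h1 | h1
  · have := abv_lt (y := y) hw h1; omega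
  · exact hS hu hw h1
  · have := abv_lt (y := y) hu h1; omega

lemma blw_inj {S : Finset V} (hS : Set.InjOn y S) {u w : V} (hu : u ∈ S) (hw : w ∈ S)
    (h : blw y S u = blw y S w) : u = w := by
  rcases lt_trichotomy (y u) (y w) with h1 | h1 | h1
  · have := blw_lt (y := y) hu h1; omega
  · exact hS hu hw h1
  · have := blw_lt (y := y) hw h1; omega

/-- above + below + 1 = card. -/
lemma abv_add_blw {S : Finset V} (hS : Set.InjOn y S) {u : V} (hu : u ∈ S) :
    abv y S u + blw y S u + 1 = S.card := by
  unfold abv blw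
  have h1 : (S.filter (fun w => y u < y w)) ∪ (S.filter (fun w => y w < y u)) = S.erase u := by
    ext z
    simp only [Finset.mem_union, Finset.mem_filter, Finset.mem_erase]
    constructor
    · rintro (⟨h, h'⟩ | ⟨h, h'⟩)
      · exact ⟨by rintro rfl; exact lt_irrefl _ h', h⟩
      · exact ⟨by rintro rfl; exact lt_irrefl _ h', h⟩
    · rintro ⟨h, h'⟩
      rcases lt_trichotomy (y u) (y z) with h2 | h2 | h2
      · exact Or.inl ⟨h', h2⟩
      · exact absurd (hS hu h' h2).symm h
      · exact Or.inr ⟨h', h2⟩
  have h2 : Disjoint (S.filter (fun w => y u < y w)) (S.filter (fun w => y w < y u)) := by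
    rw [Finset.disjoint_left]
    intro z hz hz'
    simp only [Finset.mem_filter] at hz hz'
    exact lt_asymm hz.2 hz'.2
  have h3 := Finset.card_union_of_disjoint h2
  rw [h1, Finset.card_erase_of_mem hu] at h3
  have h4 : 0 < S.card := Finset.card_pos.2 ⟨u, hu⟩
  omega

/-- above + between + below + 2 = card. -/
lemma count_pair {S : Finset V} (hS : Set.InjOn y S) {u w : V} (hu : u ∈ S) (hw : w ∈ S)
    (h : y w < y u) : abv y S u + btw y S u w + blw y S w + 2 = S.card := by
  have h0 := abv_add_blw hS hw
  have h1 : abv y S w = abv y S u + btw y S u w + 1 := by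
    unfold abv btw
    have e : S.filter (fun z => y w < y z)
        = insert u ((S.filter (fun z => y u < y z)) ∪ (S.filter (fun z => y w < y z ∧ y z < y u))) := by
      ext z
      simp only [Finset.mem_insert, Finset.mem_union, Finset.mem_filter]
      constructor
      · rintro ⟨hz, hz'⟩
        rcases lt_trichotomy (y u) (y z) with h2 | h2 | h2
        · exact Or.inr (Or.inl ⟨hz, h2⟩)
        · exact Or.inl (hS hu hz h2).symm
        · exact Or.inr (Or.inr ⟨hz, hz', h2⟩)
      · rintro (rfl | ⟨hz, hz'⟩ | ⟨hz, hz', _⟩)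
        · exact ⟨hu, h⟩
        · exact ⟨hz, h.trans hz'⟩
        · exact ⟨hz, hz'⟩
    rw [e, Finset.card_insert_of_notMem, Finset.card_union_of_disjoint]
    · rw [Finset.disjoint_left]
      intro z hz hz'
      simp only [Finset.mem_filter] at hz hz'
      exact lt_asymm hz.2 hz'.2.2
    · simp
  omega

lemma card_abv_le {S : Finset V} (hS : Set.InjOn y S) (T : Finset V) (hT : T ⊆ S) (lo hi : ℕ)
    (h : ∀ w ∈ T, lo ≤ abv y S w ∧ abv y S w < hi) : T.card ≤ hi - lo := by
  have : T.card ≤ (Finset.Ico lo hi).card := by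
    apply Finset.card_le_card_of_injOn (abv y S)
    · intro w hw
      simpa using h w hw
    · intro w hw w' hw' hh
      exact abv_inj hS (hT hw) (hT hw') hh
  simpa using this

lemma card_blw_le {S : Finset V} (hS : Set.InjOn y S) (T : Finset V) (hT : T ⊆ S) (lo hi : ℕ)
    (h : ∀ w ∈ T, lo ≤ blw y S w ∧ blw y S w < hi) : T.card ≤ hi - lo := by
  have : T.card ≤ (Finset.Ico lo hi).card := by
    apply Finset.card_le_card_of_injOn (blw y S)
    · intro w hw
      simpa using h w hw
    · intro w hw w' hw' hh
      exact blw_inj hS (hT hw) (hT hw') hh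
  simpa using this

lemma btw_insert_le {S : Finset V} {v u w : V} : btw y S u w ≤ btw y (insert v S) u w := by
  unfold btw
  apply Finset.card_le_card
  intro z hz
  simp only [Finset.mem_filter, Finset.mem_insert] at hz ⊢
  exact ⟨Or.inr hz.1, hz.2⟩

lemma abv_insert_le {S : Finset V} {v u : V} : abv y S u ≤ abv y (insert v S) u := by
  unfold abv
  apply Finset.card_le_card
  intro z hz
  simp only [Finset.mem_filter, Finset.mem_insert] at hz ⊢
  exact ⟨Or.inr hz.1, hz.2⟩

lemma blw_insert_le {S : Finset V} {v u : V} : blw y S u ≤ blw y (insert v S) u := by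
  unfold blw
  apply Finset.card_le_card
  intro z hz
  simp only [Finset.mem_filter, Finset.mem_insert] at hz ⊢
  exact ⟨Or.inr hz.1, hz.2⟩

lemma abv_insert_of_not {S : Finset V} {v u : V} (h : ¬ y u < y v) :
    abv y (insert v S) u = abv y S u := by
  unfold abv
  congr 1
  ext z
  simp only [Finset.mem_filter, Finset.mem_insert]
  constructor
  · rintro ⟨rfl | hz, hz'⟩
    · exact absurd hz' h
    · exact ⟨hz, hz'⟩
  · rintro ⟨hz, hz'⟩
    exact ⟨Or.inr hz, hz'⟩

lemma blw_insert_of_not {S : Finset V} {v u : V} (h : ¬ y v < y u) :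
    blw y (insert v S) u = blw y S u := by
  unfold blw
  congr 1
  ext z
  simp only [Finset.mem_filter, Finset.mem_insert]
  constructor
  · rintro ⟨rfl | hz, hz'⟩
    · exact absurd hz' h
    · exact ⟨hz, hz'⟩
  · rintro ⟨hz, hz'⟩
    exact ⟨Or.inr hz, hz'⟩

/-- Insertion step. -/
lemma insert_step (k : ℕ) {S : Finset V} {v : V} (hv : v ∉ S)
    (hS : Set.InjOn y (insert v S : Finset V)) {W : Finset (V × V)}
    (hA : Adjs y k S ⊆ W) (hO : Outs y k S ⊆ W) :
    ∃ W' : Finset (V × V), W ⊆ W' ∧ Adjs y k (insert v S) ⊆ W' ∧ Outs y k (insert v S) ⊆ W' ∧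
      W'.card ≤ W.card + min S.card (2 * k + 2) := by
  classical
  set S' := insert v S with hS'
  have hSS' : S ⊆ S' := Finset.subset_insert v S
  have hvS' : v ∈ S' := Finset.mem_insert_self v S
  have hcard : S'.card = S.card + 1 := Finset.card_insert_of_notMem hv
  -- the new partners of v
  set a := abv y S' v with ha
  set b := blw y S' v with hb
  have hab : a + b = S.card := by
    have := abv_add_blw hS hvS'
    omega
  let N1 : Finset V := S.filter (fun w => y v < y w ∧ a ≤ abv y S' w + (k + 1))
  let N2 : Finset V := S.filter (fun w => y v < y w ∧ abv y S' w + b ≤ k)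
  let N3 : Finset V := S.filter (fun w => y w < y v ∧ b ≤ blw y S' w + (k + 1))
  let N4 : Finset V := S.filter (fun w => y w < y v ∧ blw y S' w + a ≤ k)
  let Q : Finset V := (N1 ∪ N2) ∪ (N3 ∪ N4)
  have hN1 : N1.card ≤ a - (a - (k + 1)) := by
    apply card_abv_le hS N1 ((Finset.filter_subset _ _).trans hSS')
    intro w hw
    simp only [N1, Finset.mem_filter] at hw
    have := abv_lt (y := y) (S := S') (hSS' hw.1) hw.2.1
    omega
  have hN2 : N2.card ≤ (k + 1 - b) - 0 := by
    apply card_abv_le hS N2 ((Finset.filter_subset _ _).trans hSS')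
    intro w hw
    simp only [N2, Finset.mem_filter] at hw
    omega
  have hN3 : N3.card ≤ b - (b - (k + 1)) := by
    apply card_blw_le hS N3 ((Finset.filter_subset _ _).trans hSS')
    intro w hw
    simp only [N3, Finset.mem_filter] at hw
    have := blw_lt (y := y) (S := S') (hSS' hw.1) hw.2.1
    omega
  have hN4 : N4.card ≤ (k + 1 - a) - 0 := by
    apply card_blw_le hS N4 ((Finset.filter_subset _ _).trans hSS')
    intro w hw
    simp only [N4, Finset.mem_filter] at hw
    omega
  have hQ1 : Q.card ≤ 2 * k + 2 := by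
    have h1 := Finset.card_union_le (N1 ∪ N2) (N3 ∪ N4)
    have h2 := Finset.card_union_le N1 N2
    have h3 := Finset.card_union_le N3 N4
    simp only [Q]
    omega
  have hQ2 : Q.card ≤ S.card := by
    apply Finset.card_le_card
    intro w hw
    simp only [Q, N1, N2, N3, N4, Finset.mem_union, Finset.mem_filter] at hw
    tauto
  let N : Finset (V × V) := Q.image (fun w => if y v < y w then (w, v) else (v, w))
  have hN : N.card ≤ min S.card (2 * k + 2) :=
    Finset.card_image_le.trans (le_min hQ2 hQ1)
  refine ⟨W ∪ N, Finset.subset_union_left, ?_, ?_, ?_⟩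
  · intro p hp
    obtain ⟨u, w⟩ := p
    simp only [Adjs, Finset.mem_filter, Finset.mem_product] at hp
    obtain ⟨⟨hu, hw⟩, hlt, hbt⟩ := hp
    by_cases huv : u = v
    · subst huv
      have hwS : w ∈ S := by
        rcases Finset.mem_insert.1 hw with h | h
        · subst h; exact absurd hlt (lt_irrefl _)
        · exact h
      have hc := count_pair hS hu hw hlt
      have hc2 := abv_add_blw hS hu
      apply Finset.mem_union_right
      simp only [N, Finset.mem_image]
      refine ⟨w, ?_, ?_⟩
      · simp only [Q, N3, Finset.mem_union, Finset.mem_filter]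
        right; left
        exact ⟨hwS, hlt, by omega⟩
      · rw [if_neg (not_lt.2 hlt.le)]
    · by_cases hwv : w = v
      · subst hwv
        have huS : u ∈ S := by
          rcases Finset.mem_insert.1 hu with h | h
          · exact absurd h huv
          · exact h
        have hc := count_pair hS hu hw hlt
        have hc2 := abv_add_blw hS hw
        apply Finset.mem_union_right
        simp only [N, Finset.mem_image]
        refine ⟨u, ?_, ?_⟩
        · simp only [Q, N1, Finset.mem_union, Finset.mem_filter]
          left; left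
          exact ⟨huS, hlt, by omega⟩
        · rw [if_pos hlt]
      · apply Finset.mem_union_left
        apply hA
        simp only [Adjs, Finset.mem_filter, Finset.mem_product]
        refine ⟨⟨?_, ?_⟩, hlt, (btw_insert_le).trans hbt⟩
        · rcases Finset.mem_insert.1 hu with h | h
          · exact absurd h huv
          · exact h
        · rcases Finset.mem_insert.1 hw with h | h
          · exact absurd h hwv
          · exact h
  · intro p hp
    obtain ⟨u, w⟩ := p
    simp only [Outs, Finset.mem_filter, Finset.mem_product] at hp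
    obtain ⟨⟨hu, hw⟩, hlt, hbt⟩ := hp
    by_cases huv : u = v
    · subst huv
      have hwS : w ∈ S := by
        rcases Finset.mem_insert.1 hw with h | h
        · subst h; exact absurd hlt (lt_irrefl _)
        · exact h
      apply Finset.mem_union_right
      simp only [N, Finset.mem_image]
      refine ⟨w, ?_, ?_⟩
      · simp only [Q, N4, Finset.mem_union, Finset.mem_filter]
        right; right
        exact ⟨hwS, hlt, by omega⟩
      · rw [if_neg (not_lt.2 hlt.le)]
    · by_cases hwv : w = v
      · subst hwv
        have huS : u ∈ S := by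
          rcases Finset.mem_insert.1 hu with h | h
          · exact absurd h huv
          · exact h
        apply Finset.mem_union_right
        simp only [N, Finset.mem_image]
        refine ⟨u, ?_, ?_⟩
        · simp only [Q, N2, Finset.mem_union, Finset.mem_filter]
          left; right
          exact ⟨huS, hlt, by omega⟩
        · rw [if_pos hlt]
      · apply Finset.mem_union_left
        apply hO
        simp only [Outs, Finset.mem_filter, Finset.mem_product]
        have e1 : abv y S u ≤ abv y S' u := abv_insert_le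
        have e2 : blw y S w ≤ blw y S' w := blw_insert_le
        refine ⟨⟨?_, ?_⟩, hlt, by omega⟩
        · rcases Finset.mem_insert.1 hu with h | h
          · exact absurd h huv
          · exact h
        · rcases Finset.mem_insert.1 hw with h | h
          · exact absurd h hwv
          · exact h
  · have := Finset.card_union_le W N
    omega

lemma btw_erase {S : Finset V} {v u w : V} (hv : v ∈ S) (h : y w < y v ∧ y v < y u) :
    btw y (S.erase v) u w + 1 = btw y S u w := by
  unfold btw
  have : (S.erase v).filter (fun z => y w < y z ∧ y z < y u)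
      = (S.filter (fun z => y w < y z ∧ y z < y u)).erase v := by
    ext z
    simp only [Finset.mem_filter, Finset.mem_erase]
    tauto
  rw [this]
  apply Finset.card_erase_add_one
  simp [hv, h.1, h.2]

lemma btw_erase' {S : Finset V} {v u w : V} (h : ¬ (y w < y v ∧ y v < y u)) :
    btw y (S.erase v) u w = btw y S u w := by
  unfold btw
  congr 1
  ext z
  simp only [Finset.mem_filter, Finset.mem_erase]
  constructor
  · tauto
  · rintro ⟨h1, h2⟩
    refine ⟨⟨?_, h1⟩, h2⟩
    rintro rfl
    exact h h2

lemma abv_erase {S : Finset V} {v u : V} (hv : v ∈ S) (h : y u < y v) :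
    abv y (S.erase v) u + 1 = abv y S u := by
  unfold abv
  have : (S.erase v).filter (fun z => y u < y z) = (S.filter (fun z => y u < y z)).erase v := by
    ext z
    simp only [Finset.mem_filter, Finset.mem_erase]
    tauto
  rw [this]
  apply Finset.card_erase_add_one
  simp [hv, h]

lemma abv_erase' {S : Finset V} {v u : V} (h : ¬ y u < y v) :
    abv y (S.erase v) u = abv y S u := by
  unfold abv
  congr 1
  ext z
  simp only [Finset.mem_filter, Finset.mem_erase]
  constructor
  · tauto
  · rintro ⟨h1, h2⟩
    refine ⟨⟨?_, h1⟩, h2⟩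
    rintro rfl
    exact h h2

lemma blw_erase {S : Finset V} {v u : V} (hv : v ∈ S) (h : y v < y u) :
    blw y (S.erase v) u + 1 = blw y S u := by
  unfold blw
  have : (S.erase v).filter (fun z => y z < y u) = (S.filter (fun z => y z < y u)).erase v := by
    ext z
    simp only [Finset.mem_filter, Finset.mem_erase]
    tauto
  rw [this]
  apply Finset.card_erase_add_one
  simp [hv, h]

lemma blw_erase' {S : Finset V} {v u : V} (h : ¬ y v < y u) :
    blw y (S.erase v) u = blw y S u := by
  unfold blw
  congr 1
  ext z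
  simp only [Finset.mem_filter, Finset.mem_erase]
  constructor
  · tauto
  · rintro ⟨h1, h2⟩
    refine ⟨⟨?_, h1⟩, h2⟩
    rintro rfl
    exact h h2

/-- Pairs that are new after erasing `v`. -/
lemma erase_new (k : ℕ) {S : Finset V} {v : V} (hv : v ∈ S) (hS : Set.InjOn y (S : Set V))
    {u w : V} (hu : u ∈ S.erase v) (hw : w ∈ S.erase v) (hlt : y w < y u)
    (h : btw y (S.erase v) u w ≤ k ∨ abv y (S.erase v) u + blw y (S.erase v) w ≤ k) :
    btw y S u w ≤ k ∨ abv y S u + blw y S w ≤ k ∨
    (2 * k + 4 ≤ S.card ∧
      ((y w < y v ∧ y v < y u ∧ btw y S u w = k + 1) ∨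
       (y u < y v ∧ abv y S u + blw y S w = k + 1) ∨
       (y v < y w ∧ abv y S u + blw y S w = k + 1))) := by
  have huS := Finset.mem_of_mem_erase hu
  have hwS := Finset.mem_of_mem_erase hw
  have huv : u ≠ v := Finset.ne_of_mem_erase hu
  have hwv : w ≠ v := Finset.ne_of_mem_erase hw
  have hc := count_pair hS huS hwS hlt
  rcases lt_trichotomy (y v) (y w) with h1 | h1 | h1
  · -- both above v
    have e1 := btw_erase' (y := y) (S := S) (v := v) (u := u) (w := w) (by
      rintro ⟨h2, -⟩; exact lt_asymm h1 h2)
    have e2 := abv_erase' (y := y) (S := S) (v := v) (u := u) (not_lt.2 (h1.trans hlt).le)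
    have e3 := blw_erase (y := y) hv h1
    rw [e1, e2] at h
    by_cases hb : btw y S u w ≤ k
    · exact Or.inl hb
    · by_cases ho : abv y S u + blw y S w ≤ k
      · exact Or.inr (Or.inl ho)
      · right; right
        refine ⟨by omega, Or.inr (Or.inr ⟨h1, by omega⟩)⟩
  · exact absurd (hS hv hwS h1).symm hwv
  · rcases lt_trichotomy (y v) (y u) with h2 | h2 | h2
    · have e1 := btw_erase (y := y) hv ⟨h1, h2⟩
      have e2 := abv_erase' (y := y) (S := S) (v := v) (u := u) (not_lt.2 h2.le)
      have e3 := blw_erase' (y := y) (S := S) (v := v) (u := w) (not_lt.2 h1.le)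
      rw [e2, e3] at h
      by_cases hb : btw y S u w ≤ k
      · exact Or.inl hb
      · by_cases ho : abv y S u + blw y S w ≤ k
        · exact Or.inr (Or.inl ho)
        · right; right
          refine ⟨by omega, Or.inl ⟨h1, h2, by omega⟩⟩
    · exact absurd (hS hv huS h2).symm huv
    · have e1 := btw_erase' (y := y) (S := S) (v := v) (u := u) (w := w) (by
        rintro ⟨-, h3⟩; exact lt_asymm h2 h3)
      have e2 := abv_erase (y := y) hv h2
      have e3 := blw_erase' (y := y) (S := S) (v := v) (u := w) (not_lt.2 h1.le)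
      rw [e1, e3] at h
      by_cases hb : btw y S u w ≤ k
      · exact Or.inl hb
      · by_cases ho : abv y S u + blw y S w ≤ k
        · exact Or.inr (Or.inl ho)
        · right; right
          refine ⟨by omega, Or.inr (Or.inl ⟨h2, by omega⟩)⟩

/-- Deletion step. -/
lemma erase_step (k : ℕ) {S : Finset V} {v : V} (hv : v ∈ S)
    (hS : Set.InjOn y (S : Set V)) {W : Finset (V × V)}
    (hA : Adjs y k S ⊆ W) (hO : Outs y k S ⊆ W) :
    ∃ W' : Finset (V × V), W ⊆ W' ∧ Adjs y k (S.erase v) ⊆ W' ∧ Outs y k (S.erase v) ⊆ W' ∧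
      W'.card ≤ W.card + (if 2 * k + 4 ≤ S.card then k + 1 else 0) := by
  classical
  have hsub : ∀ u w : V, u ∈ S.erase v → w ∈ S.erase v → y w < y u →
      (btw y S u w ≤ k ∨ abv y S u + blw y S w ≤ k) → (u, w) ∈ W := by
    intro u w hu hw hlt h
    rcases h with h | h
    · apply hA
      simp only [Adjs, Finset.mem_filter, Finset.mem_product]
      exact ⟨⟨Finset.mem_of_mem_erase hu, Finset.mem_of_mem_erase hw⟩, hlt, h⟩
    · apply hO
      simp only [Outs, Finset.mem_filter, Finset.mem_product]
      exact ⟨⟨Finset.mem_of_mem_erase hu, Finset.mem_of_mem_erase hw⟩, hlt, h⟩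
  by_cases hm : 2 * k + 4 ≤ S.card
  · rw [if_pos hm]
    set a := abv y S v with ha
    set b := blw y S v with hb
    have hab : a + b + 1 = S.card := abv_add_blw hS hv
    let N1 : Finset (V × V) := (S ×ˢ S).filter
      (fun p => y p.2 < y v ∧ y v < y p.1 ∧ btw y S p.1 p.2 = k + 1)
    let N2 : Finset (V × V) := (S ×ˢ S).filter
      (fun p => y p.1 < y v ∧ y p.2 < y p.1 ∧ abv y S p.1 + blw y S p.2 = k + 1)
    let N3 : Finset (V × V) := (S ×ˢ S).filter
      (fun p => y v < y p.2 ∧ y p.2 < y p.1 ∧ abv y S p.1 + blw y S p.2 = k + 1)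
    have hN1 : N1.card ≤ min a (a + b - k - 1) - (a - (k + 1)) := by
      have : N1.card ≤ (Finset.Ico (a - (k + 1)) (min a (a + b - k - 1))).card := by
        apply Finset.card_le_card_of_injOn (fun p => abv y S p.1)
        · rintro ⟨u, w⟩ hp
          simp only [N1, Finset.coe_filter, Finset.mem_product, Set.mem_ofPred_eq] at hp
          obtain ⟨⟨hu, hw⟩, h1, h2, h3⟩ := hp
          have hc := count_pair hS hu hw (h1.trans h2)
          have h4 := abv_lt (y := y) (S := S) hu h2
          have h5 := blw_lt (y := y) (S := S) hw h1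
          simp only [Finset.coe_Ico, Set.mem_Ico]
          omega
        · rintro ⟨u, w⟩ hp ⟨u', w'⟩ hp' hh
          simp only [N1, Finset.coe_filter, Finset.mem_product, Set.mem_ofPred_eq] at hp hp' hh
          obtain ⟨⟨hu, hw⟩, h1, h2, h3⟩ := hp
          obtain ⟨⟨hu', hw'⟩, h1', h2', h3'⟩ := hp'
          have hc := count_pair hS hu hw (h1.trans h2)
          have hc' := count_pair hS hu' hw' (h1'.trans h2')
          have e1 := abv_inj hS hu hu' hh
          have e2 := blw_inj hS hw hw' (by omega)
          rw [e1, e2]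
      simpa using this
    have hN2 : N2.card ≤ k + 1 - a := by
      have : N2.card ≤ (Finset.Ico (a + 1) (k + 2)).card := by
        apply Finset.card_le_card_of_injOn (fun p => abv y S p.1)
        · rintro ⟨u, w⟩ hp
          simp only [N2, Finset.coe_filter, Finset.mem_product, Set.mem_ofPred_eq] at hp
          obtain ⟨⟨hu, hw⟩, h1, h2, h3⟩ := hp
          have h4 := abv_lt (y := y) (S := S) hv h1
          simp only [Finset.coe_Ico, Set.mem_Ico]
          omega
        · rintro ⟨u, w⟩ hp ⟨u', w'⟩ hp' hh
          simp only [N2, Finset.coe_filter, Finset.mem_product, Set.mem_ofPred_eq] at hp hp' hh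
          obtain ⟨⟨hu, hw⟩, h1, h2, h3⟩ := hp
          obtain ⟨⟨hu', hw'⟩, h1', h2', h3'⟩ := hp'
          have e1 := abv_inj hS hu hu' hh
          have e2 := blw_inj hS hw hw' (by omega)
          rw [e1, e2]
      simp only [Nat.card_Ico] at this
      omega
    have hN3 : N3.card ≤ k + 1 - b := by
      have : N3.card ≤ (Finset.Ico (b + 1) (k + 2)).card := by
        apply Finset.card_le_card_of_injOn (fun p => blw y S p.2)
        · rintro ⟨u, w⟩ hp
          simp only [N3, Finset.coe_filter, Finset.mem_product, Set.mem_ofPred_eq] at hp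
          obtain ⟨⟨hu, hw⟩, h1, h2, h3⟩ := hp
          have h4 := blw_lt (y := y) (S := S) hv h1
          simp only [Finset.coe_Ico, Set.mem_Ico]
          omega
        · rintro ⟨u, w⟩ hp ⟨u', w'⟩ hp' hh
          simp only [N3, Finset.coe_filter, Finset.mem_product, Set.mem_ofPred_eq] at hp hp' hh
          obtain ⟨⟨hu, hw⟩, h1, h2, h3⟩ := hp
          obtain ⟨⟨hu', hw'⟩, h1', h2', h3'⟩ := hp'
          have e1 := blw_inj hS hw hw' hh
          have e2 := abv_inj hS hu hu' (by omega)
          rw [e1, e2]
      simp only [Nat.card_Ico] at this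
      omega
    have key : ∀ u w : V, u ∈ S.erase v → w ∈ S.erase v → y w < y u →
        (btw y (S.erase v) u w ≤ k ∨ abv y (S.erase v) u + blw y (S.erase v) w ≤ k) →
        (u, w) ∈ W ∪ (N1 ∪ (N2 ∪ N3)) := by
      intro u w hu hw hlt h
      have huS := Finset.mem_of_mem_erase hu
      have hwS := Finset.mem_of_mem_erase hw
      rcases erase_new k hv hS hu hw hlt h with h1 | h1 | ⟨-, h1 | h1 | h1⟩
      · exact Finset.mem_union_left _ (hsub u w hu hw hlt (Or.inl h1))
      · exact Finset.mem_union_left _ (hsub u w hu hw hlt (Or.inr h1))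
      · apply Finset.mem_union_right
        apply Finset.mem_union_left
        simp only [N1, Finset.mem_filter, Finset.mem_product]
        exact ⟨⟨huS, hwS⟩, h1⟩
      · apply Finset.mem_union_right
        apply Finset.mem_union_right
        apply Finset.mem_union_left
        simp only [N2, Finset.mem_filter, Finset.mem_product]
        exact ⟨⟨huS, hwS⟩, h1.1, hlt, h1.2⟩
      · apply Finset.mem_union_right
        apply Finset.mem_union_right
        apply Finset.mem_union_right
        simp only [N3, Finset.mem_filter, Finset.mem_product]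
        exact ⟨⟨huS, hwS⟩, h1.1, hlt, h1.2⟩
    refine ⟨W ∪ (N1 ∪ (N2 ∪ N3)), Finset.subset_union_left, ?_, ?_, ?_⟩
    · rintro ⟨u, w⟩ hp
      simp only [Adjs, Finset.mem_filter, Finset.mem_product] at hp
      exact key u w hp.1.1 hp.1.2 hp.2.1 (Or.inl hp.2.2)
    · rintro ⟨u, w⟩ hp
      simp only [Outs, Finset.mem_filter, Finset.mem_product] at hp
      exact key u w hp.1.1 hp.1.2 hp.2.1 (Or.inr hp.2.2)
    · have h1 := Finset.card_union_le W (N1 ∪ (N2 ∪ N3))
      have h2 := Finset.card_union_le N1 (N2 ∪ N3)
      have h3 := Finset.card_union_le N2 N3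
      omega
  · rw [if_neg hm]
    refine ⟨W, Finset.Subset.refl _, ?_, ?_, by omega⟩
    · rintro ⟨u, w⟩ hp
      simp only [Adjs, Finset.mem_filter, Finset.mem_product] at hp
      rcases erase_new k hv hS hp.1.1 hp.1.2 hp.2.1 (Or.inl hp.2.2) with h1 | h1 | ⟨h1, -⟩
      · exact hsub u w hp.1.1 hp.1.2 hp.2.1 (Or.inl h1)
      · exact hsub u w hp.1.1 hp.1.2 hp.2.1 (Or.inr h1)
      · exact absurd h1 hm
    · rintro ⟨u, w⟩ hp
      simp only [Outs, Finset.mem_filter, Finset.mem_product] at hp
      rcases erase_new k hv hS hp.1.1 hp.1.2 hp.2.1 (Or.inr hp.2.2) with h1 | h1 | ⟨h1, -⟩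
      · exact hsub u w hp.1.1 hp.1.2 hp.2.1 (Or.inl h1)
      · exact hsub u w hp.1.1 hp.1.2 hp.2.1 (Or.inr h1)
      · exact absurd h1 hm

end Core

end Pool.Agent.Helper24.BarVis
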