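import Pool.Agent.Helper24.BarDefs
import Pool.Agent.Helper24.BarSweep

set_option autoImplicit false

namespace Pool.Agent.Helper24.BarVis

open Finset

section Upper

variable {V : Type} [Fintype V] [DecidableEq V]

/-- coordinates of the events: `(v, false)` is the left end of `v`, `(v, true)` its right end. -/
def evt (b : V → Bar) (e : V × Bool) : ℝ := if e.2 then (b e.1).r else (b e.1).l

omit [Fintype V] [DecidableEq V] in
@[simp] lemma evt_false (b : V → Bar) (v : V) : evt b (v, false) = (b v).l := by simp [evt]
omit [Fintype V] [DecidableEq V] in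
@[simp] lemma evt_true (b : V → Bar) (v : V) : evt b (v, true) = (b v).r := by simp [evt]

def cur (s : Finset (V × Bool)) : Finset V :=
  Finset.univ.filter (fun v => (v, false) ∈ s ∧ (v, true) ∉ s)
def ins (s : Finset (V × Bool)) : Finset V := Finset.univ.filter (fun v => (v, false) ∈ s)
def del (s : Finset (V × Bool)) : Finset V := Finset.univ.filter (fun v => (v, true) ∈ s)

def Initial (b : V → Bar) (s : Finset (V × Bool)) : Prop :=
  ∀ e ∈ s, ∀ e' ∉ s, evt b e ≤ evt b e'

lemma injOn_cur {b : V → Bar} (hb : ∀ u v : V, u ≠ v → Disjoint (b u).pts (b v).pts)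
    {s : Finset (V × Bool)} (hs : Initial b s) :
    Set.InjOn (fun v => (b v).y) (cur s : Set V) := by
  intro u hu v hv huv
  by_contra hne
  simp only [cur, Finset.coe_filter, Finset.mem_univ, true_and, Set.mem_ofPred_eq] at hu hv
  have h1 := hs _ hu.1 _ hv.2
  have h2 := hs _ hv.1 _ hu.2
  simp only [evt_false, evt_true] at h1 h2
  have h3 := (b u).l_lt_r
  have h4 := (b v).l_lt_r
  have hd := Set.disjoint_left.1 (hb u v hne)
  simp only at huv
  apply hd (a := (max (b u).l (b v).l, (b u).y))
  · simp only [Bar.pts, Set.mem_prod, Set.mem_Icc, Set.mem_singleton_iff, and_true]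
    exact ⟨le_max_left _ _, max_le h3.le h2⟩
  · simp only [Bar.pts, Set.mem_prod, Set.mem_Icc, Set.mem_singleton_iff]
    exact ⟨⟨le_max_right _ _, max_le h1 h4.le⟩, huv⟩

/-- bound for insertions -/
def gsum (k i : ℕ) : ℕ := ∑ r ∈ Finset.range i, min r (2 * k + 2)

lemma gsum_succ (k i : ℕ) : gsum k (i + 1) = gsum k i + min i (2 * k + 2) := by
  simp [gsum, Finset.sum_range_succ]

lemma gsum_closed (k t : ℕ) : gsum k (2 * k + 3 + t) = (k + 1) * (2 * k + 3) + (2 * k + 2) * t := by
  induction t with
  | zero =>
    have h : ∀ i, i ≤ 2 * k + 3 → 2 * gsum k i = i * (i - 1) := by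
      intro i hi
      induction i with
      | zero => simp [gsum]
      | succ j ih =>
        rw [gsum_succ, Nat.min_eq_left (by omega), Nat.mul_add, ih (by omega)]
        rcases j with _ | j
        · simp
        · simp only [Nat.add_sub_cancel]; ring
    have := h (2 * k + 3) le_rfl
    have e : (2 * k + 3) * (2 * k + 3 - 1) = 2 * ((k + 1) * (2 * k + 3)) := by
      have : 2 * k + 3 - 1 = 2 * k + 2 := by omega
      rw [this]; ring
    simp only [Nat.add_zero, Nat.mul_zero]
    omega
  | succ t ih =>
    rw [← Nat.add_assoc, gsum_succ, ih, Nat.min_eq_right (by omega)]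
    ring

theorem sweep (k : ℕ) (b : V → Bar) (hb : ∀ u v : V, u ≠ v → Disjoint (b u).pts (b v).pts)
    (s : Finset (V × Bool)) :
    Initial b s → ∃ W : Finset (V × V),
      Adjs (fun v => (b v).y) k (cur s) ⊆ W ∧ Outs (fun v => (b v).y) k (cur s) ⊆ W ∧
      (∀ D : Finset (V × Bool), D ⊆ s → (∃ x : ℝ, ∀ e, e ∈ D ↔ evt b e < x) →
        Adjs (fun v => (b v).y) k (cur D) ⊆ W) ∧
      W.card ≤ gsum k (ins s).card +
        (k + 1) * min (del s).card (Fintype.card V - (2 * k + 3)) := by
  classical
  induction s using Finset.induction_on_max_value (evt b) with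
  | empty =>
    intro _
    refine ⟨∅, ?_, ?_, ?_, ?_⟩
    · intro p hp; simp [Adjs, cur] at hp
    · intro p hp; simp [Outs, cur] at hp
    · intro D hD _ p hp
      rw [Finset.subset_empty] at hD
      subst hD
      simp [Adjs, cur] at hp
    · simp
  | insert a s ha hmax ih =>
    intro hs'
    have hs : Initial b s := by
      intro e he e' he'
      by_cases h : e' = a
      · subst h; exact hmax e he
      · exact hs' e (Finset.mem_insert_of_mem he) e' (by simp [h, he'])
    obtain ⟨W, hWA, hWO, hWD, hWc⟩ := ih hs
    have hinj := injOn_cur hb hs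
    have hinj' := injOn_cur hb hs'
    -- reduction for the cuts
    have hcut : ∀ D : Finset (V × Bool), D ⊆ insert a s → (∃ x : ℝ, ∀ e, e ∈ D ↔ evt b e < x) →
        D ⊆ s ∨ D = insert a s := by
      intro D hD hx
      obtain ⟨x, hx⟩ := hx
      by_cases haD : a ∈ D
      · right
        apply Finset.Subset.antisymm hD
        intro e he
        rcases Finset.mem_insert.1 he with rfl | he
        · exact haD
        · exact (hx e).2 (lt_of_le_of_lt (hmax e he) ((hx a).1 haD))
      · left
        intro e he
        rcases Finset.mem_insert.1 (hD he) with rfl | h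
        · exact absurd he haD
        · exact h
    obtain ⟨v, c⟩ := a
    cases c with
    | false =>
      have hvt : (v, true) ∉ s := by
        intro h
        have := hmax _ h
        simp only [evt_true, evt_false] at this
        have := (b v).l_lt_r
        linarith
      have hvS : v ∉ cur s := by simp [cur, ha]
      have hcur : cur (insert (v, false) s) = insert v (cur s) := by
        ext z
        simp only [cur, Finset.mem_filter, Finset.mem_univ, true_and, Finset.mem_insert,
          Prod.mk.injEq]
        constructor
        · rintro ⟨h1 | h1, h2⟩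
          · exact Or.inl h1.1
          · right; exact ⟨h1, fun h => h2 (Or.inr h)⟩
        · rintro (rfl | ⟨h1, h2⟩)
          · exact ⟨Or.inl ⟨rfl, trivial⟩, by simp [hvt]⟩
          · exact ⟨Or.inr h1, by simp [h2]⟩
      have hins : (ins (insert (v, false) s)).card = (ins s).card + 1 := by
        have : ins (insert (v, false) s) = insert v (ins s) := by
          ext z
          simp [ins]
        rw [this, Finset.card_insert_of_notMem (by simp [ins, ha])]
      have hdel : del (insert (v, false) s) = del s := by
        ext z; simp [del]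
      have hle : (cur s).card ≤ (ins s).card := by
        apply Finset.card_le_card
        intro z hz
        simp only [cur, ins, Finset.mem_filter, Finset.mem_univ, true_and] at hz ⊢
        exact hz.1
      rw [hcur] at hinj'
      obtain ⟨W', h1, h2, h3, h4⟩ := insert_step k hvS hinj' hWA hWO
      rw [hcur, hins, hdel, gsum_succ]
      refine ⟨W', h2, h3, ?_, ?_⟩
      · intro D hD hx
        rcases hcut D hD hx with h | h
        · exact (hWD D h hx).trans h1
        · rw [h, hcur]; exact h2
      · have : min (cur s).card (2 * k + 2) ≤ min (ins s).card (2 * k + 2) :=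
          min_le_min_right _ hle
        omega
    | true =>
      have hvf : (v, false) ∈ s := by
        by_contra h
        have h' : (v, false) ∉ insert (v, true) s := by simp [h]
        have := hs' (v, true) (Finset.mem_insert_self _ _) _ h'
        simp only [evt_true, evt_false] at this
        have := (b v).l_lt_r
        linarith
      have hvS : v ∈ cur s := by simp [cur, ha, hvf]
      have hcur : cur (insert (v, true) s) = (cur s).erase v := by
        ext z
        simp only [cur, Finset.mem_filter, Finset.mem_univ, true_and, Finset.mem_insert,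
          Prod.mk.injEq, Finset.mem_erase]
        constructor
        · rintro ⟨h1 | h1, h2⟩
          · simp at h1
          · refine ⟨?_, h1, fun h => h2 (Or.inr h)⟩
            rintro rfl
            exact h2 (Or.inl ⟨rfl, trivial⟩)
        · rintro ⟨hz, h1, h2⟩
          exact ⟨Or.inr h1, by simp [hz, h2]⟩
      have hins : ins (insert (v, true) s) = ins s := by
        ext z; simp [ins]
      have hdel : (del (insert (v, true) s)).card = (del s).card + 1 := by
        have : del (insert (v, true) s) = insert v (del s) := by
          ext z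
          simp [del]
        rw [this, Finset.card_insert_of_notMem (by simp [del, ha])]
      have hle : (cur s).card + (del s).card ≤ Fintype.card V := by
        have hd : Disjoint (cur s) (del s) := by
          rw [Finset.disjoint_left]
          intro z hz hz'
          simp only [cur, del, Finset.mem_filter, Finset.mem_univ, true_and] at hz hz'
          exact hz.2 hz'
        rw [← Finset.card_union_of_disjoint hd]
        exact Finset.card_le_univ _
      obtain ⟨W', h1, h2, h3, h4⟩ := erase_step k hvS hinj hWA hWO
      rw [hcur, hins, hdel]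
      refine ⟨W', h2, h3, ?_, ?_⟩
      · intro D hD hx
        rcases hcut D hD hx with h | h
        · exact (hWD D h hx).trans h1
        · rw [h, hcur]; exact h2
      · by_cases hm : 2 * k + 4 ≤ (cur s).card
        · rw [if_pos hm] at h4
          have e1 : min ((del s).card + 1) (Fintype.card V - (2 * k + 3)) = (del s).card + 1 := by
            omega
          have e2 : min (del s).card (Fintype.card V - (2 * k + 3)) = (del s).card := by
            omega
          rw [e1]
          rw [e2] at hWc
          rw [Nat.mul_add]
          omega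
        · rw [if_neg hm] at h4
          have : (k + 1) * min (del s).card (Fintype.card V - (2 * k + 3))
              ≤ (k + 1) * min ((del s).card + 1) (Fintype.card V - (2 * k + 3)) :=
            Nat.mul_le_mul_left _ (by omega)
          omega

theorem upper (k : ℕ) (G : SimpleGraph V) (hG : IsBarVisibilityGraph k G)
    (hn : 2 * k + 3 ≤ Fintype.card V) :
    G.edgeSet.ncard ≤ (k + 1) * (3 * Fintype.card V - (4 * k + 6)) := by
  classical
  obtain ⟨b, hb⟩ := hG
  obtain ⟨W, -, -, hWD, hWc⟩ := sweep k b hb.disjoint (Finset.univ) (by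
    intro e _ e' he'; exact absurd (Finset.mem_univ e') he')
  have key : ∀ u w : V, Sees k b w u → (u, w) ∈ W := by
    rintro u w ⟨x₁, x₂, y₁, y₂, hx, hy, hw, hu, hcount⟩
    -- extract coordinates
    have hw1 := hw (a := (x₁, y₁)) (by simp [hx.le])
    have hw2 := hw (a := (x₂, y₁)) (by simp [hx.le])
    have hu1 := hu (a := (x₁, y₂)) (by simp [hx.le])
    have hu2 := hu (a := (x₂, y₂)) (by simp [hx.le])
    simp only [Bar.pts, Set.mem_prod, Set.mem_Icc, Set.mem_singleton_iff] at hw1 hw2 hu1 hu2
    set x := (x₁ + x₂) / 2 with hxdef
    have hx1 : x₁ < x := by rw [hxdef]; linarith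
    have hx2 : x < x₂ := by rw [hxdef]; linarith
    let D : Finset (V × Bool) := Finset.univ.filter (fun e => evt b e < x)
    have hD := hWD D (Finset.subset_univ _) ⟨x, by intro e; simp [D]⟩
    apply hD
    have hcurD : ∀ z : V, z ∈ cur D ↔ (b z).l < x ∧ x ≤ (b z).r := by
      intro z
      simp [cur, D]
    simp only [Adjs, Finset.mem_filter, Finset.mem_product]
    refine ⟨⟨?_, ?_⟩, ?_, ?_⟩
    · rw [hcurD]; exact ⟨by linarith [hu1.1.1], by linarith [hu2.1.2]⟩
    · rw [hcurD]; exact ⟨by linarith [hw1.1.1], by linarith [hw2.1.2]⟩
    · rw [← hw1.2, ← hu1.2]; exact hy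
    · have hsub : (((cur D).filter (fun z => (b w).y < (b z).y ∧ (b z).y < (b u).y) : Finset V) : Set V)
          ⊆ {z : V | z ≠ w ∧ z ≠ u ∧
            ((b z).pts ∩ (Set.Ioo x₁ x₂ ×ˢ Set.Ioo y₁ y₂)).Nonempty} := by
        intro z hz
        simp only [Finset.coe_filter, Set.mem_ofPred_eq] at hz
        rw [hcurD] at hz
        refine ⟨?_, ?_, ?_⟩
        · rintro rfl; exact lt_irrefl _ hz.2.1
        · rintro rfl; exact lt_irrefl _ hz.2.2
        · refine ⟨(x, (b z).y), ?_, ?_⟩
          · simp only [Bar.pts, Set.mem_prod, Set.mem_Icc, Set.mem_singleton_iff, and_true]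
            exact ⟨hz.1.1.le, hz.1.2⟩
          · simp only [Set.mem_prod, Set.mem_Ioo]
            refine ⟨⟨hx1, hx2⟩, ?_, ?_⟩
            · rw [hw1.2]; exact hz.2.1
            · rw [hu1.2]; exact hz.2.2
      have h1 := (Set.encard_le_encard hsub).trans hcount
      rw [Set.encard_coe_eq_coe_finsetCard] at h1
      unfold btw
      exact_mod_cast h1
  have hsub : G.edgeSet ⊆ ((W.image (fun p => s(p.1, p.2)) : Finset (Sym2 V)) : Set (Sym2 V)) := by
    intro e
    induction e using Sym2.ind with
    | _ u w =>
      intro he
      rw [SimpleGraph.mem_edgeSet, hb.adj_iff] at he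
      simp only [Finset.coe_image, Set.mem_image, Finset.mem_coe]
      rcases he.2 with h | h
      · exact ⟨(w, u), key w u h, Sym2.eq_swap⟩
      · exact ⟨(u, w), key u w h, rfl⟩
  have h1 : G.edgeSet.ncard ≤ W.card := by
    refine (Set.ncard_le_ncard hsub (Finset.finite_toSet _)).trans ?_
    rw [Set.ncard_coe_finset]
    exact Finset.card_image_le
  have h2 : (ins (Finset.univ : Finset (V × Bool))).card = Fintype.card V := by
    simp [ins]
  rw [h2] at hWc
  obtain ⟨t, ht⟩ : ∃ t, Fintype.card V = 2 * k + 3 + t := ⟨_, (Nat.add_sub_of_le hn).symm⟩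
  have h3 : min (del (Finset.univ : Finset (V × Bool))).card (Fintype.card V - (2 * k + 3)) ≤ t := by
    omega
  have h4 := Nat.mul_le_mul_left (k + 1) h3
  rw [ht, gsum_closed] at hWc
  rw [ht]
  have h5 : 3 * (2 * k + 3 + t) - (4 * k + 6) = (2 * k + 3) + 3 * t := by omega
  rw [h5]
  rw [ht] at h4
  nlinarith

end Upper

end Pool.Agent.Helper24.BarVis
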