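import Mathlib

/-
Kites are Ramsey: the combinatorial core.

A word is a list of reals; a word is read along increasing coordinates of a large Euclidean
space, and zero letters are ignored. After passing to limit colours along an ultrafilter the
colour of such a vector depends only on the word. `Tr α β w w' g g'` says that two copies P, Q
of the word w and two copies R, S of the word w' can be placed so that
α P + β Q = (R + S) / 2, |P - Q|^2 = g, |R - S|^2 = g' and (P - Q) . (R - S) = 0.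
We build arbitrarily many words W_i with `Tr α β (W_i) (W_j) 4 (16 α β)` for all i < j.
Two of them share a limit colour, and this gives a kite with all four vertices of one colour.
-/

open Filter

namespace Pool.Agent.Helper24.Kite



/-! ### ultrafilter limits of colours -/

noncomputable def ulim {k : ℕ} (f : ℕ → Fin k) : Fin k :=
  Classical.choose (Ultrafilter.eq_pure_of_finite ((hyperfilter ℕ).map f))

lemma ulim_spec {k : ℕ} (f : ℕ → Fin k) : ∀ᶠ n in (hyperfilter ℕ : Filter ℕ), f n = ulim f := by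
  have h := Classical.choose_spec (Ultrafilter.eq_pure_of_finite ((hyperfilter ℕ).map f))
  have h2 : ({ulim f} : Set (Fin k)) ∈ (hyperfilter ℕ).map f := by
    rw [h]; exact Ultrafilter.mem_pure.2 rfl
  exact h2

lemma ulim_const {k : ℕ} (c : Fin k) : ulim (fun _ : ℕ => c) = c := by
  have h := ulim_spec (fun _ : ℕ => c)
  obtain ⟨n, hn⟩ := h.exists
  exact hn.symm

noncomputable def col {k : ℕ} (X : (ℕ → ℝ) → Fin k) : List ℝ → (ℕ → ℝ) → Fin k
  | [], v => X v
  | (x :: w), v => ulim (fun n => col X w (v + Pi.single n x))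

lemma col_zero {k : ℕ} (X : (ℕ → ℝ) → Fin k) (w : List ℝ) (v : ℕ → ℝ) :
    col X (0 :: w) v = col X w v := by
  simp [col, ulim_const]

noncomputable def nz (w : List ℝ) : List ℝ := w.filter (fun x => x ≠ 0)

lemma col_nz {k : ℕ} (X : (ℕ → ℝ) → Fin k) (w : List ℝ) (v : ℕ → ℝ) :
    col X (nz w) v = col X w v := by
  induction w generalizing v with
  | nil => rfl
  | cons x w ih =>
    by_cases hx : x = 0
    · subst hx
      rw [col_zero, ← ih]
      simp [nz]
    · have : nz (x :: w) = x :: nz w := by simp [nz, hx]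
      rw [this]
      simp only [col]
      congr 1
      funext n
      exact ih _

lemma col_congr {k : ℕ} (X : (ℕ → ℝ) → Fin k) {w w' : List ℝ} (h : nz w = nz w') (v : ℕ → ℝ) :
    col X w v = col X w' v := by
  rw [← col_nz, h, col_nz]

def emb : List ℕ → List ℝ → (ℕ → ℝ)
  | x :: xs, r :: rs => Pi.single x r + emb xs rs
  | _, _ => 0

lemma emb_nil (r : List ℝ) : emb [] r = 0 := by cases r <;> rfl

lemma emb_notMem (xs : List ℕ) (rs : List ℝ) (y : ℕ) (hy : y ∉ xs) : emb xs rs y = 0 := by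
  induction xs generalizing rs with
  | nil => simp [emb_nil]
  | cons x xs ih =>
    cases rs with
    | nil => rfl
    | cons r rs =>
      simp only [List.mem_cons, not_or] at hy
      simp [emb, ih rs hy.2, hy.1]

/-- realisation of the limit colours by actual coordinates -/
lemma realise {k : ℕ} (X : (ℕ → ℝ) → Fin k) {ι : Type} [Finite ι] (L : List (ι → ℝ)) :
    ∀ (v : ι → (ℕ → ℝ)) (N : ℕ), ∃ xs : List ℕ, xs.length = L.length ∧ xs.Nodup ∧
      (∀ x ∈ xs, N ≤ x) ∧ ∀ i, X (v i + emb xs (L.map (fun c => c i))) =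
        col X (L.map (fun c => c i)) (v i) := by
  induction L with
  | nil =>
    intro v N
    exact ⟨[], rfl, List.nodup_nil, by simp, fun i => by simp [emb_nil, col]⟩
  | cons c L ih =>
    intro v N
    have h1 : ∀ᶠ n in (hyperfilter ℕ : Filter ℕ), ∀ i,
        col X (L.map (fun c => c i)) (v i + Pi.single n (c i)) =
          col X ((c :: L).map (fun c => c i)) (v i) := by
      rw [eventually_all]
      intro i
      exact ulim_spec _
    have h2 : ∀ᶠ n in (hyperfilter ℕ : Filter ℕ), N ≤ n :=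
      Nat.hyperfilter_le_atTop (eventually_ge_atTop N)
    obtain ⟨n, hn1, hn2⟩ := (h1.and h2).exists
    obtain ⟨xs, hlen, hnd, hge, hcol⟩ := ih (fun i => v i + Pi.single n (c i)) (n + 1)
    refine ⟨n :: xs, by simp [hlen], ?_, ?_, ?_⟩
    · rw [List.nodup_cons]
      refine ⟨fun hmem => ?_, hnd⟩
      have := hge n hmem
      omega
    · intro x hx
      rcases List.mem_cons.1 hx with rfl | hx
      · exact hn2
      · have := hge x hx
        omega
    · intro i
      rw [← hn1 i, ← hcol i]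
      simp [emb, add_assoc]

/-- inner products of embedded lists -/
lemma emb_inner (xs : List ℕ) (hnd : xs.Nodup) (u w : List ℝ) (M : ℕ) (hM : ∀ x ∈ xs, x < M)
    (hu : u.length = xs.length) (hw : w.length = xs.length) :
    ∑ i : Fin M, emb xs u i * emb xs w i = (List.zipWith (· * ·) u w).sum := by
  induction xs generalizing u w with
  | nil =>
    simp only [List.length_nil, List.length_eq_zero_iff] at hu hw
    subst hu hw
    simp [emb_nil]
  | cons x xs ih =>
    obtain ⟨a, u, rfl⟩ : ∃ a u', u = a :: u' := by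
      cases u with
      | nil => simp at hu
      | cons a u => exact ⟨a, u, rfl⟩
    obtain ⟨b, w, rfl⟩ : ∃ a u', w = a :: u' := by
      cases w with
      | nil => simp at hw
      | cons a u => exact ⟨a, u, rfl⟩
    rw [List.nodup_cons] at hnd
    have hx : x < M := hM x (by simp)
    have h1 := ih hnd.2 u w (fun y hy => hM y (by simp [hy])) (by simpa using hu) (by simpa using hw)
    have hzu : emb xs u x = 0 := emb_notMem _ _ _ hnd.1
    have hzw : emb xs w x = 0 := emb_notMem _ _ _ hnd.1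
    simp only [emb, List.zipWith_cons_cons, List.sum_cons, ← h1]
    have h3 : ∀ i : Fin M, ((Pi.single x a : ℕ → ℝ) + emb xs u) (i : ℕ) *
        ((Pi.single x b : ℕ → ℝ) + emb xs w) (i : ℕ) =
        (if i = (⟨x, hx⟩ : Fin M) then a * b else 0) + emb xs u i * emb xs w i := by
      intro i
      by_cases hi : i = ⟨x, hx⟩
      · subst hi
        simp [hzu, hzw]
      · have hi' : (i : ℕ) ≠ x := fun h => hi (Fin.ext h)
        simp [hi, Pi.single_apply, hi']
    rw [Finset.sum_congr rfl (fun i _ => h3 i), Finset.sum_add_distrib]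
    simp




lemma nz_append (u w : List ℝ) : nz (u ++ w) = nz u ++ nz w := by simp [nz]

lemma nz_map_mul (c : ℝ) (w : List ℝ) : nz (w.map (c * ·)) = nz ((nz w).map (c * ·)) := by
  induction w with
  | nil => rfl
  | cons x w ih =>
    by_cases hx : x = 0
    · subst hx
      have h1 : nz ((0 : ℝ) :: w) = nz w := by simp [nz]
      rw [h1, ← ih]
      simp [nz]
    · have h1 : nz (x :: w) = x :: nz w := by simp [nz, hx]
      rw [h1]
      simp only [List.map_cons]
      by_cases hc : c * x = 0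
      · have h2 : ∀ l, nz (c * x :: l) = nz l := by intro l; simp [nz, hc]
        rw [h2, h2, ih]
      · have h2 : ∀ l, nz (c * x :: l) = c * x :: nz l := by intro l; simp [nz, hc]
        rw [h2, h2, ih]

lemma nz_zeros (n : ℕ) : nz (List.replicate n (0 : ℝ)) = [] := by
  induction n with
  | zero => rfl
  | succ n ih => simp [nz]

structure Col where
  p : ℝ
  q : ℝ
  r : ℝ
  s : ℝ

/-- transition -/
def Tr (α β : ℝ) (w w' : List ℝ) (g g' : ℝ) : Prop :=
  ∃ L : List Col, nz (L.map Col.p) = nz w ∧ nz (L.map Col.q) = nz w ∧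
    nz (L.map Col.r) = nz w' ∧ nz (L.map Col.s) = nz w' ∧
    (∀ c ∈ L, α * c.p + β * c.q = (c.r + c.s) / 2) ∧
    (L.map (fun c => (c.p - c.q) ^ 2)).sum = g ∧
    (L.map (fun c => (c.r - c.s) ^ 2)).sum = g' ∧
    (L.map (fun c => (c.p - c.q) * (c.r - c.s))).sum = 0

lemma Tr.append {α β : ℝ} {w1 w1' w2 w2' : List ℝ} {g1 g1' g2 g2' : ℝ}
    (h1 : Tr α β w1 w1' g1 g1') (h2 : Tr α β w2 w2' g2 g2') :
    Tr α β (w1 ++ w2) (w1' ++ w2') (g1 + g2) (g1' + g2') := by
  obtain ⟨L1, a1, a2, a3, a4, a5, a6, a7, a8⟩ := h1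
  obtain ⟨L2, b1, b2, b3, b4, b5, b6, b7, b8⟩ := h2
  refine ⟨L1 ++ L2, ?_, ?_, ?_, ?_, ?_, ?_, ?_, ?_⟩
  · rw [List.map_append, nz_append, nz_append, a1, b1]
  · rw [List.map_append, nz_append, nz_append, a2, b2]
  · rw [List.map_append, nz_append, nz_append, a3, b3]
  · rw [List.map_append, nz_append, nz_append, a4, b4]
  · intro c hc
    rcases List.mem_append.1 hc with hc | hc
    · exact a5 c hc
    · exact b5 c hc
  · rw [List.map_append, List.sum_append, a6, b6]
  · rw [List.map_append, List.sum_append, a7, b7]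
  · rw [List.map_append, List.sum_append, a8, b8, add_zero]

lemma Tr.smul {α β : ℝ} {w w' : List ℝ} {g g' : ℝ} (h : Tr α β w w' g g') (c : ℝ) :
    Tr α β (w.map (c * ·)) (w'.map (c * ·)) (c ^ 2 * g) (c ^ 2 * g') := by
  obtain ⟨L, a1, a2, a3, a4, a5, a6, a7, a8⟩ := h
  refine ⟨L.map (fun d => ⟨c * d.p, c * d.q, c * d.r, c * d.s⟩), ?_, ?_, ?_, ?_, ?_, ?_, ?_, ?_⟩
  · have : (L.map (fun d : Col => (⟨c * d.p, c * d.q, c * d.r, c * d.s⟩ : Col))).map Col.p =
        (L.map Col.p).map (c * ·) := by simp [List.map_map, Function.comp_def]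
    rw [this, nz_map_mul, a1, ← nz_map_mul]
  · have : (L.map (fun d : Col => (⟨c * d.p, c * d.q, c * d.r, c * d.s⟩ : Col))).map Col.q =
        (L.map Col.q).map (c * ·) := by simp [List.map_map, Function.comp_def]
    rw [this, nz_map_mul, a2, ← nz_map_mul]
  · have : (L.map (fun d : Col => (⟨c * d.p, c * d.q, c * d.r, c * d.s⟩ : Col))).map Col.r =
        (L.map Col.r).map (c * ·) := by simp [List.map_map, Function.comp_def]
    rw [this, nz_map_mul, a3, ← nz_map_mul]
  · have : (L.map (fun d : Col => (⟨c * d.p, c * d.q, c * d.r, c * d.s⟩ : Col))).map Col.s =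
        (L.map Col.s).map (c * ·) := by simp [List.map_map, Function.comp_def]
    rw [this, nz_map_mul, a4, ← nz_map_mul]
  · intro d hd
    obtain ⟨e, he, rfl⟩ := List.mem_map.1 hd
    have := a5 e he
    simp only
    linear_combination c * this
  · rw [← a6, List.map_map, ← List.sum_map_mul_left]
    congr 1
    apply List.map_congr_left
    intro d _
    simp only [Function.comp]
    ring
  · rw [← a7, List.map_map, ← List.sum_map_mul_left]
    congr 1
    apply List.map_congr_left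
    intro d _
    simp only [Function.comp]
    ring
  · have : (c ^ 2) * (L.map (fun c => (c.p - c.q) * (c.r - c.s))).sum = 0 := by rw [a8, mul_zero]
    rw [← this, List.map_map, ← List.sum_map_mul_left]
    congr 1
    apply List.map_congr_left
    intro d _
    simp only [Function.comp]
    ring

lemma Tr.refl {α β : ℝ} (hαβ : α + β = 1) (w : List ℝ) : Tr α β w w 0 0 := by
  refine ⟨w.map (fun x => ⟨x, x, x, x⟩), ?_, ?_, ?_, ?_, ?_, ?_, ?_, ?_⟩
  · simp [List.map_map, Function.comp_def]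
  · simp [List.map_map, Function.comp_def]
  · simp [List.map_map, Function.comp_def]
  · simp [List.map_map, Function.comp_def]
  · intro d hd
    obtain ⟨e, he, rfl⟩ := List.mem_map.1 hd
    simp only
    linear_combination e * hαβ
  · simp [List.map_map, Function.comp_def]
  · simp [List.map_map, Function.comp_def]
  · simp [List.map_map, Function.comp_def]

noncomputable def sq (w : List ℝ) : ℝ := (w.map (fun x => x ^ 2)).sum

lemma sq_append (u w : List ℝ) : sq (u ++ w) = sq u + sq w := by simp [sq]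

lemma sq_nonneg (w : List ℝ) : 0 ≤ sq w := by
  induction w with
  | nil => simp [sq]
  | cons x w ih =>
    have : sq (x :: w) = x ^ 2 + sq w := by simp [sq]
    rw [this]
    positivity

lemma Tr.split {α β : ℝ} (w : List ℝ) :
    Tr α β w (w.map (α * ·) ++ w.map (β * ·)) (2 * sq w) 0 := by
  refine ⟨w.map (fun x => ⟨x, 0, α * x, α * x⟩) ++ w.map (fun x => ⟨0, x, β * x, β * x⟩),
    ?_, ?_, ?_, ?_, ?_, ?_, ?_, ?_⟩
  · simp [List.map_map, Function.comp_def, nz_append, nz_zeros]
  · simp [List.map_map, Function.comp_def, nz_append, nz_zeros]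
  · simp [List.map_map, Function.comp_def, nz_append]
  · simp [List.map_map, Function.comp_def, nz_append]
  · intro d hd
    rcases List.mem_append.1 hd with hd | hd
    · obtain ⟨e, he, rfl⟩ := List.mem_map.1 hd
      simp only
      ring
    · obtain ⟨e, he, rfl⟩ := List.mem_map.1 hd
      simp only
      ring
  · simp [List.map_map, Function.comp_def, sq, two_mul]
  · simp [List.map_map, Function.comp_def]
  · simp [List.map_map, Function.comp_def]

lemma Tr.merge {α β : ℝ} (hαβ : α + β = 1) (w : List ℝ) :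
    Tr α β (w.map (· / 2) ++ w.map (· / 2)) w 0 (2 * sq w) := by
  refine ⟨w.map (fun x => ⟨x / 2, x / 2, x, 0⟩) ++ w.map (fun x => ⟨x / 2, x / 2, 0, x⟩),
    ?_, ?_, ?_, ?_, ?_, ?_, ?_, ?_⟩
  · simp [List.map_map, Function.comp_def, nz_append]
  · simp [List.map_map, Function.comp_def, nz_append]
  · simp [List.map_map, Function.comp_def, nz_append, nz_zeros]
  · simp [List.map_map, Function.comp_def, nz_append, nz_zeros]
  · intro d hd
    rcases List.mem_append.1 hd with hd | hd
    · obtain ⟨e, he, rfl⟩ := List.mem_map.1 hd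
      simp only
      linear_combination (e / 2) * hαβ
    · obtain ⟨e, he, rfl⟩ := List.mem_map.1 hd
      simp only
      linear_combination (e / 2) * hαβ
  · simp [List.map_map, Function.comp_def]
  · simp [List.map_map, Function.comp_def, sq, two_mul]
  · simp [List.map_map, Function.comp_def]

lemma Tr.create1 {α β : ℝ} (hαβ : α + β = 1) :
    Tr α β [1 / 2, -(1 / 2)] [1, -1] 0 6 := by
  refine ⟨[⟨1 / 2, 1 / 2, 1, 0⟩, ⟨0, 0, -1, 1⟩, ⟨-(1 / 2), -(1 / 2), 0, -1⟩],
    ?_, ?_, ?_, ?_, ?_, ?_, ?_, ?_⟩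
  · simp [nz]
  · simp [nz]
  · simp [nz]
  · simp [nz]
  · intro d hd
    simp only [List.mem_cons, List.not_mem_nil, or_false] at hd
    rcases hd with rfl | rfl | rfl
    · simp only
      linear_combination (1 / 2) * hαβ
    · simp only
      ring
    · simp only
      linear_combination (-(1 / 2)) * hαβ
  · norm_num
  · norm_num
  · norm_num

lemma Tr.create2 {α β : ℝ} (hαβ : α + β = 1) :
    Tr α β [1 / 2, -(1 / 2)] [1, -1, 1, -1] 0 14 := by
  refine ⟨[⟨1 / 2, 1 / 2, 1, 0⟩, ⟨0, 0, -1, 1⟩, ⟨0, 0, 1, -1⟩, ⟨0, 0, -1, 1⟩,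
    ⟨-(1 / 2), -(1 / 2), 0, -1⟩], ?_, ?_, ?_, ?_, ?_, ?_, ?_, ?_⟩
  · simp [nz]
  · simp [nz]
  · simp [nz]
  · simp [nz]
  · intro d hd
    simp only [List.mem_cons, List.not_mem_nil, or_false] at hd
    rcases hd with rfl | rfl | rfl | rfl | rfl
    · simp only
      linear_combination (1 / 2) * hαβ
    · simp only
      ring
    · simp only
      ring
    · simp only
      ring
    · simp only
      linear_combination (-(1 / 2)) * hαβ
  · norm_num
  · norm_num
  · norm_num

/-- conservation of the norm -/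
lemma sq_nz (w : List ℝ) : sq (nz w) = sq w := by
  induction w with
  | nil => rfl
  | cons x w ih =>
    by_cases hx : x = 0
    · subst hx
      have h1 : nz ((0 : ℝ) :: w) = nz w := by simp [nz]
      rw [h1, ih]
      simp [sq]
    · have h1 : nz (x :: w) = x :: nz w := by simp [nz, hx]
      rw [h1]
      have h2 : ∀ l, sq (x :: l) = x ^ 2 + sq l := by intro l; simp [sq]
      rw [h2, h2, ih]

lemma Tr.norm {α β : ℝ} (hαβ : α + β = 1) {w w' : List ℝ} {g g' : ℝ} (h : Tr α β w w' g g') :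
    g' - 4 * α * β * g = 4 * (sq w' - sq w) := by
  obtain ⟨L, a1, a2, a3, a4, a5, a6, a7, -⟩ := h
  have hp : sq (L.map Col.p) = sq w := by rw [← sq_nz, a1, sq_nz]
  have hq : sq (L.map Col.q) = sq w := by rw [← sq_nz, a2, sq_nz]
  have hr : sq (L.map Col.r) = sq w' := by rw [← sq_nz, a3, sq_nz]
  have hs : sq (L.map Col.s) = sq w' := by rw [← sq_nz, a4, sq_nz]
  have key : (sq (L.map Col.r) + sq (L.map Col.s)) / 2 -
      (α * sq (L.map Col.p) + β * sq (L.map Col.q)) = g' / 4 - α * β * g := by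
    rw [← a6, ← a7]
    clear a1 a2 a3 a4 a6 a7 hp hq hr hs
    induction L with
    | nil => simp [sq]
    | cons c L ih =>
      have h1 := ih (fun d hd => a5 d (List.mem_cons_of_mem _ hd))
      have h2 := a5 c (by simp)
      have h3 : ∀ (x : ℝ) l, sq (x :: l) = x ^ 2 + sq l := by intro x l; simp [sq]
      simp only [List.map_cons, List.sum_cons, h3]
      have hβ : β = 1 - α := by linarith
      subst hβ
      have h4 : c.s = 2 * (α * c.p + (1 - α) * c.q) - c.r := by linarith
      have h5 : (c.r ^ 2 + c.s ^ 2) / 2 - (α * c.p ^ 2 + (1 - α) * c.q ^ 2) =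
          (c.r - c.s) ^ 2 / 4 - α * (1 - α) * (c.p - c.q) ^ 2 := by
        rw [h4]; ring
      linarith
  rw [hp, hq, hr, hs] at key
  have h6 : α * sq w + β * sq w = sq w := by rw [← add_mul, hαβ, one_mul]
  linarith

/-! ### catalysed moves -/

def Reach (α β : ℝ) (u v : List ℝ) (g g' : ℝ) : Prop :=
  (∃ C, Tr α β (u ++ C) (C ++ v) g g') ∧ (∃ C, Tr α β (C ++ u) (v ++ C) g g')

lemma Reach.of_tr {α β : ℝ} {u v : List ℝ} {g g' : ℝ} (h : Tr α β u v g g') :
    Reach α β u v g g' :=
  ⟨⟨[], by simpa using h⟩, ⟨[], by simpa using h⟩⟩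

lemma Reach.trans {α β : ℝ} {u v w : List ℝ} {g g' f f' : ℝ} (h : Reach α β u v g g')
    (k : Reach α β v w f f') : Reach α β u w (g + f) (g' + f') := by
  obtain ⟨⟨C1, h1⟩, ⟨D1, h2⟩⟩ := h
  obtain ⟨⟨C2, k1⟩, ⟨D2, k2⟩⟩ := k
  refine ⟨⟨C1 ++ v ++ C2, ?_⟩, ⟨D2 ++ v ++ D1, ?_⟩⟩
  · have := h1.append k1
    simpa [List.append_assoc] using this
  · have := k2.append h2
    rw [add_comm g f, add_comm g' f']
    simpa [List.append_assoc] using this

def pm (w : List ℝ) : List ℝ := w ++ w.map ((-1) * ·)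

lemma Tr.pm {α β : ℝ} {w w' : List ℝ} {g g' : ℝ} (h : Tr α β w w' g g') :
    Tr α β (pm w) (pm w') (2 * g) (2 * g') := by
  have := h.append (h.smul (-1))
  have e1 : g + (-1) ^ 2 * g = 2 * g := by ring
  have e2 : g' + (-1) ^ 2 * g' = 2 * g' := by ring
  rw [e1, e2] at this
  exact this

noncomputable def Hp (K : ℕ) (w : List ℝ) : List ℝ :=
  w.flatMap (fun x => List.replicate (2 ^ K) (x / 2 ^ K))

noncomputable def Sp (α β : ℝ) (w : List ℝ) : List ℝ := w.flatMap (fun x => [α * x, β * x])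

lemma Hp_zero (w : List ℝ) : Hp 0 w = w := by simp [Hp]

lemma Hp_cons (K : ℕ) (x : ℝ) (w : List ℝ) :
    Hp K (x :: w) = List.replicate (2 ^ K) (x / 2 ^ K) ++ Hp K w := by simp [Hp]

lemma Sp_cons (α β : ℝ) (x : ℝ) (w : List ℝ) :
    Sp α β (x :: w) = α * x :: β * x :: Sp α β w := by simp [Sp]

lemma sq_cons (x : ℝ) (w : List ℝ) : sq (x :: w) = x ^ 2 + sq w := by simp [sq]

lemma sq_replicate (n : ℕ) (x : ℝ) : sq (List.replicate n x) = n * x ^ 2 := by
  simp [sq]

lemma sq_Hp (K : ℕ) (w : List ℝ) : sq (Hp K w) = sq w / 2 ^ K := by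
  induction w with
  | nil => simp [Hp, sq]
  | cons x w ih =>
    rw [Hp_cons, sq_append, ih, sq_cons, sq_replicate]
    have : (2 : ℝ) ^ K ≠ 0 := by positivity
    push_cast
    field_simp

lemma sq_Sp (α β : ℝ) (w : List ℝ) : sq (Sp α β w) = (α ^ 2 + β ^ 2) * sq w := by
  induction w with
  | nil => simp [Sp, sq]
  | cons x w ih =>
    rw [Sp_cons, sq_cons, sq_cons, ih, sq_cons]
    ring

lemma sq_Sp_iter (α β : ℝ) (M : ℕ) (w : List ℝ) :
    sq ((Sp α β)^[M] w) = (α ^ 2 + β ^ 2) ^ M * sq w := by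
  induction M with
  | zero => simp
  | succ M ih =>
    rw [Function.iterate_succ_apply', sq_Sp, ih]
    ring

lemma Tr_H_split {α β : ℝ} (K : ℕ) (w : List ℝ) :
    Tr α β (Hp K w) (Hp K (Sp α β w)) (2 * sq (Hp K w)) 0 := by
  induction w with
  | nil =>
    have h : Tr α β ([] : List ℝ) [] 0 0 := ⟨[], by simp, by simp, by simp, by simp, by simp, by simp, by simp, by simp⟩
    simpa [Hp, Sp, sq] using h
  | cons x w ih =>
    have h1 := Tr.split (α := α) (β := β) (List.replicate (2 ^ K) (x / 2 ^ K))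
    have h2 := h1.append ih
    rw [Sp_cons, Hp_cons, Hp_cons, Hp_cons, sq_append, mul_add, add_zero] at *
    simp only [List.map_replicate] at h2
    have e1 : α * (x / 2 ^ K) = α * x / 2 ^ K := by ring
    have e2 : β * (x / 2 ^ K) = β * x / 2 ^ K := by ring
    rw [e1, e2] at h2
    simpa [List.append_assoc] using h2

lemma Tr_H_merge {α β : ℝ} (hαβ : α + β = 1) (K : ℕ) (w : List ℝ) :
    Tr α β (Hp (K + 1) w) (Hp K w) 0 (2 * sq (Hp K w)) := by
  induction w with
  | nil =>
    have h : Tr α β ([] : List ℝ) [] 0 0 := ⟨[], by simp, by simp, by simp, by simp, by simp, by simp, by simp, by simp⟩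
    simpa [Hp, Sp, sq] using h
  | cons x w ih =>
    have h1 := Tr.merge hαβ (List.replicate (2 ^ K) (x / 2 ^ K))
    have h2 := h1.append ih
    rw [Hp_cons, Hp_cons, sq_append, mul_add]
    simp only [List.map_replicate, List.replicate_append_replicate] at h2
    have e1 : x / 2 ^ K / 2 = x / 2 ^ (K + 1) := by rw [pow_succ]; field_simp
    have e2 : 2 ^ K + 2 ^ K = 2 ^ (K + 1) := by rw [pow_succ]; ring
    rw [e1, e2, add_zero] at h2
    exact h2

lemma reach_split {α β : ℝ} (hαβ : α + β = 1) (K M : ℕ) (w : List ℝ) :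
    Reach α β (pm (Hp K w)) (pm (Hp K ((Sp α β)^[M] w)))
      (∑ n ∈ Finset.range M, 4 * ((α ^ 2 + β ^ 2) ^ n * sq w / 2 ^ K)) 0 := by
  induction M with
  | zero => simpa using Reach.of_tr (Tr.refl hαβ (pm (Hp K w)))
  | succ M ih =>
    have h1 := Reach.of_tr (Tr_H_split (α := α) (β := β) K ((Sp α β)^[M] w)).pm
    have h2 := ih.trans h1
    rw [Finset.sum_range_succ, Function.iterate_succ_apply']
    rw [sq_Hp, sq_Sp_iter] at h2
    have e1 : 2 * (2 * ((α ^ 2 + β ^ 2) ^ M * sq w / 2 ^ K)) =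
        4 * ((α ^ 2 + β ^ 2) ^ M * sq w / 2 ^ K) := by ring
    rw [e1, mul_zero, add_zero] at h2
    exact h2

lemma reach_merge {α β : ℝ} (hαβ : α + β = 1) (K : ℕ) (w : List ℝ) :
    Reach α β (pm (Hp K w)) (pm w) 0 (∑ k ∈ Finset.range K, 4 * (sq w / 2 ^ k)) := by
  induction K with
  | zero => simpa [Hp_zero] using Reach.of_tr (Tr.refl hαβ (pm w))
  | succ K ih =>
    have h1 := Reach.of_tr (Tr_H_merge hαβ K w).pm
    have h2 := h1.trans ih
    rw [Finset.sum_range_succ]
    rw [sq_Hp] at h2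
    have e1 : 2 * (2 * (sq w / 2 ^ K)) + ∑ k ∈ Finset.range K, 4 * (sq w / 2 ^ k) =
        ∑ k ∈ Finset.range K, 4 * (sq w / 2 ^ k) + 4 * (sq w / 2 ^ K) := by ring
    rw [e1, mul_zero, add_zero] at h2
    exact h2

/-! ### repetition -/

def rep (n : ℕ) (l : List ℝ) : List ℝ := (List.replicate n l).flatten

lemma rep_succ (n : ℕ) (l : List ℝ) : rep (n + 1) l = l ++ rep n l := by
  simp [rep, List.replicate_succ]

lemma rep_rotate (n : ℕ) (e x : List ℝ) : rep n (e ++ x) ++ e = e ++ rep n (x ++ e) := by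
  induction n with
  | zero => simp [rep]
  | succ n ih =>
    rw [rep_succ, rep_succ, List.append_assoc, ih]
    simp [List.append_assoc]

lemma Tr.rep {α β : ℝ} {l l' : List ℝ} {g g' : ℝ} (h : Tr α β l l' g g') (n : ℕ) :
    Tr α β (rep n l) (rep n l') (n * g) (n * g') := by
  induction n with
  | zero =>
    have h : Tr α β ([] : List ℝ) [] 0 0 := ⟨[], by simp, by simp, by simp, by simp, by simp, by simp, by simp, by simp⟩
    simpa [Pool.Agent.Helper24.Kite.rep] using h
  | succ n ih =>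
    rw [rep_succ, rep_succ]
    have := h.append ih
    have e1 : g + n * g = ((n + 1 : ℕ) : ℝ) * g := by push_cast; ring
    have e2 : g' + n * g' = ((n + 1 : ℕ) : ℝ) * g' := by push_cast; ring
    rw [e1, e2] at this
    exact this

/-- two routes between the same pair of words -/
lemma two_routes {α β : ℝ} (hαβ : α + β = 1) {a b : List ℝ} {g1 g1' g3 g3' g4 g4' : ℝ}
    (h1 : Reach α β a b g1 g1') (h3 : Reach α β a [1, -1] g3 g3')
    (h4 : Reach α β [1, -1] b g4 g4') (n : ℕ) :
    ∃ σ τ, Tr α β σ τ (n * g1) (n * g1' + 20) ∧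
      Tr α β σ τ (n * (g3 + g4)) (n * (g3' + g4') + 20) := by
  obtain ⟨⟨C, hC⟩, -⟩ := h1
  obtain ⟨-, ⟨D1, hD1⟩⟩ := h3
  obtain ⟨-, ⟨D2, hD2⟩⟩ := h4
  set e : List ℝ := [1, -1] with he
  set d : List ℝ := [1 / 2, -(1 / 2)] with hd
  have c1 : Tr α β d e 0 6 := Tr.create1 hαβ
  have c2 : Tr α β d (e ++ e) 0 14 := Tr.create2 hαβ
  refine ⟨d ++ rep n (e ++ (D1 ++ a ++ C ++ D2)) ++ e ++ d,
    (e ++ e) ++ rep n (e ++ (D1 ++ C ++ b ++ D2)) ++ e ++ e, ?_, ?_⟩
  · have p1 : Tr α β (e ++ (D1 ++ a ++ C ++ D2)) (e ++ (D1 ++ C ++ b ++ D2)) g1 g1' := by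
      have := (Tr.refl hαβ (e ++ D1)).append (hC.append (Tr.refl hαβ D2))
      simpa [List.append_assoc] using this
    have := ((c2.append (p1.rep n)).append (Tr.refl hαβ e)).append c1
    have e1 : (0 : ℝ) + n * g1 + 0 + 0 = n * g1 := by ring
    have e2 : (14 : ℝ) + n * g1' + 0 + 6 = n * g1' + 20 := by ring
    rw [e1, e2] at this
    exact this
  · have p1 : Tr α β ((D1 ++ a ++ C ++ D2) ++ e) (e ++ (D1 ++ C ++ b ++ D2)) (g3 + g4)
        (g3' + g4') := by
      have := hD1.append ((Tr.refl hαβ C).append hD2)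
      simpa [List.append_assoc] using this
    have q1 : Tr α β (d ++ e) (e ++ e) (0 + 0) (6 + 0) := c1.append (Tr.refl hαβ e)
    have := (q1.append (p1.rep n)).append c2
    have e1 : (0 : ℝ) + 0 + n * (g3 + g4) + 0 = n * (g3 + g4) := by ring
    have e2 : (6 : ℝ) + 0 + n * (g3' + g4') + 14 = n * (g3' + g4') + 20 := by ring
    rw [e1, e2] at this
    have r1 : d ++ rep n (e ++ (D1 ++ a ++ C ++ D2)) ++ e ++ d =
        d ++ e ++ rep n ((D1 ++ a ++ C ++ D2) ++ e) ++ d := by
      rw [List.append_assoc d, rep_rotate]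
      simp [List.append_assoc]
    rw [r1]
    simpa [List.append_assoc] using this

lemma pm_one : pm [1] = [1, -1] := by simp [pm]

lemma geom_half (K : ℕ) (c : ℝ) : ∑ k ∈ Finset.range K, 4 * (c / 2 ^ k) = 8 * c - 8 * (c / 2 ^ K) := by
  induction K with
  | zero => simp
  | succ K ih =>
    rw [Finset.sum_range_succ, ih, pow_succ]
    field_simp
    ring

lemma balance {α β : ℝ} (hα : 0 < α) (hβ : 0 < β) (hαβ : α + β = 1) {ρ : ℝ} {σ τ : List ℝ}
    {x1 x1' x2 x2' : ℝ} (t1 : Tr α β σ τ x1 x1') (t2 : Tr α β σ τ x2 x2')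
    (b1 : ρ * x1 ≤ x2) (b3 : ρ * x1' ≤ 4 * α * β * x2) (b4 : 0 < x1') :
    ∃ (σ τ : List ℝ) (X1 X2 : ℝ), 0 < X1 ∧ ρ * X1 ≤ X2 ∧
      Tr α β σ τ X1 (4 * α * β * X1) ∧ Tr α β σ τ X2 (4 * α * β * X2) := by
  have n1 := t1.norm hαβ
  have n2 := t2.norm hαβ
  obtain ⟨s2, hs2⟩ : ∃ s2 : ℝ, s2 = 4 * α * β := ⟨_, rfl⟩
  have hs2pos : 0 < s2 := by rw [hs2]; positivity
  rw [← hs2] at n1 n2 b3 ⊢
  have n3 : x2' - s2 * x2 = x1' - s2 * x1 := by linarith
  clear n1 n2
  rcases le_total 0 (x1' - s2 * x1) with hd | hd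
  · -- add a split letter
    have hy : 0 ≤ (x1' - s2 * x1) / (2 * s2) := by positivity
    obtain ⟨y, hy2⟩ : ∃ y : ℝ, y ^ 2 = (x1' - s2 * x1) / (2 * s2) :=
      ⟨Real.sqrt ((x1' - s2 * x1) / (2 * s2)), Real.sq_sqrt hy⟩
    have sp := Tr.split (α := α) (β := β) [y]
    have hsq : 2 * sq [y] = (x1' - s2 * x1) / s2 := by
      rw [sq_cons, hy2]
      simp only [sq, List.map_nil, List.sum_nil]
      field_simp
      ring
    rw [hsq] at sp
    have e1 : x1 + (x1' - s2 * x1) / s2 = x1' / s2 := by field_simp; ring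
    have e2 : x1' + 0 = s2 * (x1' / s2) := by field_simp; ring
    have e3 : x2' + 0 = s2 * (x2 + (x1' - s2 * x1) / s2) := by
      rw [mul_add, mul_div_cancel₀ _ hs2pos.ne']
      linarith
    have u1 := t1.append sp
    have u2 := t2.append sp
    rw [e1, e2] at u1
    rw [e3] at u2
    refine ⟨_, _, x1' / s2, x2 + (x1' - s2 * x1) / s2, by positivity, ?_, u1, u2⟩
    have h5 : ρ * (x1' / s2) ≤ x2 := by
      rw [mul_div_assoc', div_le_iff₀ hs2pos]
      linarith
    have h6 : 0 ≤ (x1' - s2 * x1) / s2 := div_nonneg hd hs2pos.le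
    linarith
  · -- add a merge letter
    have hy : 0 ≤ (s2 * x1 - x1') / 2 := by linarith
    obtain ⟨y, hy2⟩ : ∃ y : ℝ, y ^ 2 = (s2 * x1 - x1') / 2 :=
      ⟨Real.sqrt ((s2 * x1 - x1') / 2), Real.sq_sqrt hy⟩
    have sp := Tr.merge hαβ [y]
    have hsq : 2 * sq [y] = s2 * x1 - x1' := by
      rw [sq_cons, hy2]
      simp only [sq, List.map_nil, List.sum_nil]
      ring
    rw [hsq] at sp
    have e1 : x1 + 0 = x1 := by ring
    have e2 : x1' + (s2 * x1 - x1') = s2 * x1 := by ring
    have e3 : x2 + 0 = x2 := by ring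
    have e4 : x2' + (s2 * x1 - x1') = s2 * x2 := by linarith
    have u1 := t1.append sp
    have u2 := t2.append sp
    rw [e1, e2] at u1
    rw [e3, e4] at u2
    refine ⟨_, _, x1, x2, ?_, b1, u1, u2⟩
    have : 0 < s2 * x1 := by linarith
    exact (mul_pos_iff_of_pos_left hs2pos).1 this

lemma flexible {α β : ℝ} (hα : 0 < α) (hβ : 0 < β) (hαβ : α + β = 1) {ρ : ℝ} (hρ : 1 ≤ ρ) :
    ∃ (σ τ : List ℝ) (X1 X2 : ℝ), 0 < X1 ∧ ρ * X1 ≤ X2 ∧
      Tr α β σ τ X1 (4 * α * β * X1) ∧ Tr α β σ τ X2 (4 * α * β * X2) := by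
  set q : ℝ := α ^ 2 + β ^ 2 with hq
  set s2 : ℝ := 4 * α * β with hs2
  have hs2pos : 0 < s2 := by positivity
  have hq1 : q = 1 - 2 * α * β := by
    have : β = 1 - α := by linarith
    rw [hq, this]; ring
  have hqlt : q < 1 := by
    have : 0 < 2 * α * β := by positivity
    linarith
  have hq0 : 0 ≤ q := by positivity
  obtain ⟨K, hK⟩ : ∃ K : ℕ, ρ < 2 ^ K := pow_unbounded_of_one_lt ρ one_lt_two
  obtain ⟨M0, hM0⟩ : ∃ M : ℕ, q ^ M < s2 / (4 * ρ) :=
    exists_pow_lt_of_lt_one (by positivity) hqlt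
  set M := M0 + 1 with hM
  have hMq : q ^ M ≤ s2 / (4 * ρ) := by
    have : q ^ M ≤ q ^ M0 := pow_le_pow_of_le_one hq0 hqlt.le (by omega)
    linarith
  obtain ⟨n, hn⟩ : ∃ n : ℕ, 10 * ρ / s2 ≤ n := exists_nat_ge _
  have hn' : 10 * ρ ≤ n * s2 := by
    rw [div_le_iff₀ hs2pos] at hn
    exact hn
  -- costs
  have hone : sq [1] = 1 := by simp [sq]
  have h1a := reach_split hαβ K M [1]
  have h1b := reach_merge hαβ K ((Sp α β)^[M] [1])
  have h1 := h1a.trans h1b
  have h3 := reach_merge hαβ K [1]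
  have h4 := reach_split hαβ 0 M [1]
  rw [Hp_zero, Hp_zero] at h4
  rw [pm_one] at h3 h4
  rw [sq_Sp_iter] at h1
  rw [hone] at h1 h3 h4
  have hg2ex : ∃ g2 : ℝ, g2 = ∑ n ∈ Finset.range M, 4 * (q ^ n * 1 / 2 ^ 0) := ⟨_, rfl⟩
  obtain ⟨g2, hg2⟩ := hg2ex
  have hg1 : ∑ n ∈ Finset.range M, 4 * (q ^ n * 1 / 2 ^ K) = g2 / 2 ^ K := by
    rw [hg2, Finset.sum_div]
    apply Finset.sum_congr rfl
    intro i _
    simp only [pow_zero, div_one]
    ring
  rw [hg1, geom_half] at h1
  rw [geom_half] at h3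
  rw [← hg2] at h4
  obtain ⟨σ, τ, t1, t2⟩ := two_routes hαβ h1 h3 h4 n
  have hg2ge : 4 ≤ g2 := by
    rw [hg2, hM, Finset.sum_range_succ']
    have : 0 ≤ ∑ k ∈ Finset.range M0, 4 * (q ^ (k + 1) * 1 / 2 ^ 0) :=
      Finset.sum_nonneg (fun i _ => by positivity)
    simp only [pow_zero, mul_one, div_one] at this ⊢
    linarith
  have hK2 : (0 : ℝ) < 2 ^ K := by positivity
  have hrho : 0 < ρ := by linarith
  set x1 : ℝ := n * (g2 / 2 ^ K + 0) with hx1
  set x1' : ℝ := n * (0 + (8 * (q ^ M * 1) - 8 * (q ^ M * 1 / 2 ^ K))) + 20 with hx1'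
  set x2 : ℝ := n * (0 + g2) with hx2
  set x2' : ℝ := n * (8 * 1 - 8 * (1 / 2 ^ K) + 0) + 20 with hx2'
  have hnn : (0 : ℝ) ≤ n := Nat.cast_nonneg n
  have b1 : ρ * x1 ≤ x2 := by
    rw [hx1, hx2]
    have : ρ * (g2 / 2 ^ K) ≤ g2 := by
      rw [mul_div_assoc', div_le_iff₀ hK2]
      nlinarith
    nlinarith
  have b2 : x1' ≤ n * (8 * q ^ M) + 20 := by
    rw [hx1']
    have h0 : 0 ≤ q ^ M * 1 / 2 ^ K := by positivity
    have h00 : (0 + (8 * (q ^ M * 1) - 8 * (q ^ M * 1 / 2 ^ K))) ≤ 8 * q ^ M := by linarith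
    have := mul_le_mul_of_nonneg_left h00 hnn
    linarith
  have b3 : ρ * x1' ≤ s2 * x2 := by
    have h5 : ρ * (8 * q ^ M) ≤ 2 * s2 := by
      have h6 : q ^ M * (4 * ρ) ≤ s2 := by
        rw [le_div_iff₀ (by positivity)] at hMq
        exact hMq
      nlinarith
    have h7 : ρ * x1' ≤ n * (ρ * (8 * q ^ M)) + 20 * ρ := by
      have := mul_le_mul_of_nonneg_left b2 hrho.le
      linarith
    have h8 : n * (ρ * (8 * q ^ M)) ≤ n * (2 * s2) := mul_le_mul_of_nonneg_left h5 hnn
    have h9 : n * 4 ≤ x2 := by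
      rw [hx2, zero_add]
      exact mul_le_mul_of_nonneg_left hg2ge hnn
    have h10 : s2 * (n * 4) ≤ s2 * x2 := mul_le_mul_of_nonneg_left h9 hs2pos.le
    nlinarith
  have b4 : 20 ≤ x1' := by
    rw [hx1']
    have h0 : q ^ M * 1 / 2 ^ K ≤ q ^ M * 1 := by
      apply div_le_self (by positivity)
      exact one_le_pow₀ (by norm_num)
    have h00 : 0 ≤ (0 + (8 * (q ^ M * 1) - 8 * (q ^ M * 1 / 2 ^ K))) := by linarith
    have := mul_nonneg hnn h00
    linarith
  exact balance hα hβ hαβ t1 t2 b1 b3 (by linarith)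

/-! ### cliques -/

def RealC (α β : ℝ) (m : ℕ) (c : Fin m → Fin m → ℝ) : Prop :=
  ∃ W : Fin m → List ℝ, ∀ i j, i < j → Tr α β (W i) (W j) (c i j) (4 * α * β * c i j)

lemma RealC.congr {α β : ℝ} {m : ℕ} {c d : Fin m → Fin m → ℝ} (h : RealC α β m c)
    (hcd : ∀ i j, i < j → c i j = d i j) : RealC α β m d := by
  obtain ⟨W, hW⟩ := h
  exact ⟨W, fun i j hij => by rw [← hcd i j hij]; exact hW i j hij⟩

lemma RealC.add {α β : ℝ} {m : ℕ} {c d : Fin m → Fin m → ℝ} (h : RealC α β m c)
    (k : RealC α β m d) : RealC α β m (fun i j => c i j + d i j) := by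
  obtain ⟨W, hW⟩ := h
  obtain ⟨V, hV⟩ := k
  refine ⟨fun i => W i ++ V i, fun i j hij => ?_⟩
  rw [mul_add]
  exact (hW i j hij).append (hV i j hij)

lemma RealC.smul {α β : ℝ} {m : ℕ} {c : Fin m → Fin m → ℝ} (h : RealC α β m c) {t : ℝ}
    (ht : 0 ≤ t) : RealC α β m (fun i j => t * c i j) := by
  obtain ⟨W, hW⟩ := h
  refine ⟨fun i => (W i).map (Real.sqrt t * ·), fun i j hij => ?_⟩
  have := (hW i j hij).smul (Real.sqrt t)
  rw [Real.sq_sqrt ht] at this
  have e : t * (4 * α * β * c i j) = 4 * α * β * (t * c i j) := by ring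
  rw [e] at this
  exact this

lemma RealC.zero {α β : ℝ} {m : ℕ} : RealC α β m (fun _ _ => 0) := by
  refine ⟨fun _ => [], fun i j _ => ?_⟩
  rw [mul_zero]
  exact ⟨[], by simp, by simp, by simp, by simp, by simp, by simp, by simp, by simp⟩

lemma RealC.sum {α β : ℝ} {m : ℕ} {ι : Type} (S : Finset ι) (c : ι → Fin m → Fin m → ℝ)
    (h : ∀ t ∈ S, RealC α β m (c t)) : RealC α β m (fun i j => ∑ t ∈ S, c t i j) := by
  classical
  induction S using Finset.induction_on with
  | empty => simpa using RealC.zero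
  | insert a S ha ih =>
    have h1 := h a (Finset.mem_insert_self a S)
    have h2 := ih (fun t ht => h t (Finset.mem_insert_of_mem ht))
    have := h1.add h2
    refine this.congr (fun i j _ => ?_)
    rw [Finset.sum_insert ha]

lemma cut_clique {α β : ℝ} (hαβ : α + β = 1) {σ τ : List ℝ} {X1 X2 : ℝ}
    (h1 : Tr α β σ τ X1 (4 * α * β * X1)) (h2 : Tr α β σ τ X2 (4 * α * β * X2)) {m : ℕ} (t : ℕ)
    (S : Finset (Fin m × Fin m)) : ∀ f : Fin m × Fin m → ℝ,
      (∀ p ∈ S, X1 ≤ f p ∧ f p ≤ X2) → (∀ p, p ∉ S → f p = X1 ∨ f p = X2) →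
      RealC α β m (fun i j => if (i : ℕ) ≤ t ∧ t < (j : ℕ) then f (i, j) else 0) := by
  classical
  induction S using Finset.induction_on with
  | empty =>
    intro f _ hf
    refine ⟨fun i => if (i : ℕ) ≤ t then σ else τ, fun i j hij => ?_⟩
    have hij' : (i : ℕ) < (j : ℕ) := hij
    beta_reduce
    by_cases hi : (i : ℕ) ≤ t
    · by_cases hj : (j : ℕ) ≤ t
      · have hc : ¬ ((i : ℕ) ≤ t ∧ t < (j : ℕ)) := by omega
        rw [if_neg hc, mul_zero, if_pos hi, if_pos hj]
        exact Tr.refl hαβ σ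
      · have hc : ((i : ℕ) ≤ t ∧ t < (j : ℕ)) := by omega
        rw [if_pos hc, if_pos hi, if_neg hj]
        rcases hf (i, j) (by simp) with h | h
        · rw [h]; exact h1
        · rw [h]; exact h2
    · have hj : ¬ (j : ℕ) ≤ t := by omega
      have hc : ¬ ((i : ℕ) ≤ t ∧ t < (j : ℕ)) := by omega
      rw [if_neg hc, mul_zero, if_neg hi, if_neg hj]
      exact Tr.refl hαβ τ
  | insert a S ha ih =>
    intro f hf hf'
    have hfa := hf a (Finset.mem_insert_self a S)
    rcases eq_or_lt_of_le (hfa.1.trans hfa.2) with hX | hX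
    · -- degenerate
      apply ih f
      · intro p hp
        exact hf p (Finset.mem_insert_of_mem hp)
      · intro p hp
        by_cases hpa : p = a
        · subst hpa
          left
          linarith [hfa.1, hfa.2]
        · exact hf' p (by simp [hpa, hp])
    · set θ : ℝ := (f a - X1) / (X2 - X1) with hθ
      have hpos : 0 < X2 - X1 := by linarith
      have hθ0 : 0 ≤ θ := div_nonneg (by linarith [hfa.1]) hpos.le
      have hθ1 : 0 ≤ 1 - θ := by
        rw [hθ, sub_nonneg, div_le_one hpos]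
        linarith [hfa.2]
      have k0 := ih (Function.update f a X1) (fun p hp => by
          have hpa : p ≠ a := fun h => ha (h ▸ hp)
          rw [Function.update_of_ne hpa]
          exact hf p (Finset.mem_insert_of_mem hp)) (fun p hp => by
          by_cases hpa : p = a
          · subst hpa; left; simp
          · rw [Function.update_of_ne hpa]
            exact hf' p (by simp [hpa, hp]))
      have k1 := ih (Function.update f a X2) (fun p hp => by
          have hpa : p ≠ a := fun h => ha (h ▸ hp)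
          rw [Function.update_of_ne hpa]
          exact hf p (Finset.mem_insert_of_mem hp)) (fun p hp => by
          by_cases hpa : p = a
          · subst hpa; right; simp
          · rw [Function.update_of_ne hpa]
            exact hf' p (by simp [hpa, hp]))
      refine ((k0.smul hθ1).add (k1.smul hθ0)).congr (fun i j hij => ?_)
      by_cases hc : ((i : ℕ) ≤ t ∧ t < (j : ℕ))
      · simp only [if_pos hc]
        by_cases hpa : (i, j) = a
        · rw [hpa]
          simp only [Function.update_self]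
          rw [hθ]
          field_simp
          ring
        · rw [Function.update_of_ne hpa, Function.update_of_ne hpa]
          ring
      · simp only [if_neg hc]
        ring

lemma cliques {α β : ℝ} (hα : 0 < α) (hβ : 0 < β) (hαβ : α + β = 1) (m : ℕ) :
    ∃ W : Fin m → List ℝ, ∀ i j, i < j → Tr α β (W i) (W j) 4 (4 * α * β * 4) := by
  obtain ⟨σ, τ, X1, X2, hX1, hX, h1, h2⟩ :=
    flexible hα hβ hαβ (ρ := (m : ℝ) + 1) (by linarith [Nat.cast_nonneg (α := ℝ) m])
  have hX12 : X1 ≤ X2 := by nlinarith [Nat.cast_nonneg (α := ℝ) m]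
  have hX2 : 0 < X2 := by linarith
  have key : RealC α β m (fun i j => ∑ t ∈ Finset.range m,
      (if (i : ℕ) ≤ t ∧ t < (j : ℕ) then X2 / ((j : ℝ) - (i : ℝ)) else 0)) := by
    apply RealC.sum
    intro t _
    have := cut_clique hαβ h1 h2 (m := m) t (Finset.univ.filter (fun p => p.1 < p.2))
      (fun p => if p.1 < p.2 then X2 / ((p.2 : ℝ) - (p.1 : ℝ)) else X1)
      (fun p hp => by
        simp only [Finset.mem_filter, Finset.mem_univ, true_and] at hp
        simp only [hp, if_true]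
        have hlt : (p.1 : ℕ) < (p.2 : ℕ) := hp
        have hd1 : (1 : ℝ) ≤ (p.2 : ℝ) - (p.1 : ℝ) := by
          have : ((p.1 : ℕ) : ℝ) + 1 ≤ ((p.2 : ℕ) : ℝ) := by exact_mod_cast hlt
          linarith
        have hd2 : (p.2 : ℝ) - (p.1 : ℝ) ≤ m + 1 := by
          have h3 : ((p.2 : ℕ) : ℝ) ≤ m := by exact_mod_cast (p.2.2).le
          have h4 : (0 : ℝ) ≤ ((p.1 : ℕ) : ℝ) := Nat.cast_nonneg _
          linarith
        constructor
        · rw [le_div_iff₀ (by linarith)]
          nlinarith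
        · exact div_le_self hX2.le hd1)
      (fun p hp => by
        simp only [Finset.mem_filter, Finset.mem_univ, true_and] at hp
        left
        simp [hp])
    refine this.congr (fun i j hij => ?_)
    simp [hij]
  have key2 : RealC α β m (fun _ _ => 4) := by
    refine (key.smul (t := 4 / X2) (by positivity)).congr (fun i j hij => ?_)
    have hlt : (i : ℕ) < (j : ℕ) := hij
    rw [← Finset.sum_filter, Finset.sum_const]
    have hcard : (Finset.filter (fun t => (i : ℕ) ≤ t ∧ t < (j : ℕ)) (Finset.range m)) =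
        Finset.Ico (i : ℕ) (j : ℕ) := by
      ext t
      simp only [Finset.mem_filter, Finset.mem_range, Finset.mem_Ico]
      have := j.2
      omega
    rw [hcard, Nat.card_Ico, nsmul_eq_mul]
    have hd : ((j : ℝ) - (i : ℝ)) ≠ 0 := by
      have : ((i : ℕ) : ℝ) < ((j : ℕ) : ℝ) := by exact_mod_cast hlt
      intro h0
      linarith
    rw [Nat.cast_sub hlt.le]
    field_simp
  exact key2


/-! ### linearity of the embedding -/

lemma emb_lin {γ : Type} (xs : List ℕ) (L : List γ) (g h : γ → ℝ) (A B : ℝ) :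
    emb xs (L.map (fun c => A * g c + B * h c)) = A • emb xs (L.map g) + B • emb xs (L.map h) := by
  induction L generalizing xs with
  | nil =>
    cases xs with
    | nil => simp [emb]
    | cons x xs => simp [emb]
  | cons c L ih =>
    cases xs with
    | nil => simp [emb]
    | cons x xs =>
      simp only [List.map_cons, emb, ih xs]
      have h1 : (Pi.single x (A * g c + B * h c) : ℕ → ℝ) =
          A • Pi.single x (g c) + B • Pi.single x (h c) := by
        ext i
        by_cases hi : i = x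
        · subst hi; simp
        · simp [hi]
      rw [h1]
      simp only [smul_add]
      abel


/-- The analytic heart of the matter: every colouring of a Euclidean space of large dimension
with k colours has a centre c and an orthonormal pair e, f such that the four vertices
c + e, c - e, c + a e + s f, c + a e - s f of the kite have one colour. -/
theorem kite_core (a : ℝ) (h1 : -1 < a) (h2 : a < 1) (k : ℕ) (hk : 0 < k) :
    ∃ n : ℕ, 2 ≤ n ∧ ∀ χ : EuclideanSpace ℝ (Fin n) → Fin k,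
      ∃ (c0 : Fin k) (c e f : EuclideanSpace ℝ (Fin n)), ‖e‖ = 1 ∧ ‖f‖ = 1 ∧ inner ℝ e f = 0 ∧
        χ (c + e) = c0 ∧ χ (c - e) = c0 ∧
        χ (c + a • e + Real.sqrt (1 - a ^ 2) • f) = c0 ∧
        χ (c + a • e - Real.sqrt (1 - a ^ 2) • f) = c0 := by
  by_contra hcon
  push Not at hcon
  have hex : ∀ n, ∃ χ : EuclideanSpace ℝ (Fin n) → Fin k, 2 ≤ n →
      ∀ (c0 : Fin k) (c e f : EuclideanSpace ℝ (Fin n)), ‖e‖ = 1 → ‖f‖ = 1 → inner ℝ e f = 0 →
        χ (c + e) = c0 → χ (c - e) = c0 →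
        χ (c + a • e + Real.sqrt (1 - a ^ 2) • f) = c0 →
        χ (c + a • e - Real.sqrt (1 - a ^ 2) • f) ≠ c0 := by
    intro n
    by_cases hn : 2 ≤ n
    · obtain ⟨χ, hχ⟩ := hcon n hn
      exact ⟨χ, fun _ => hχ⟩
    · exact ⟨fun _ => ⟨0, hk⟩, fun h => absurd h hn⟩
  choose χ hχ using hex
  obtain ⟨X, hX⟩ : ∃ X : (ℕ → ℝ) → Fin k, ∀ v, X v =
      ulim (fun n => χ n (WithLp.toLp 2 (fun i : Fin n => v i))) := ⟨_, fun _ => rfl⟩
  set α : ℝ := (1 + a) / 2 with hα
  set β : ℝ := (1 - a) / 2 with hβ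
  have hα0 : 0 < α := by rw [hα]; linarith
  have hβ0 : 0 < β := by rw [hβ]; linarith
  have hαβ : α + β = 1 := by rw [hα, hβ]; ring
  obtain ⟨W, hW⟩ := cliques hα0 hβ0 hαβ (k + 1)
  obtain ⟨i, j, hij, hcol⟩ : ∃ i j : Fin (k + 1), i < j ∧ col X (W i) 0 = col X (W j) 0 := by
    obtain ⟨x, y, hxy, h⟩ := Fintype.exists_ne_map_eq_of_card_lt
      (fun i : Fin (k + 1) => col X (W i) 0) (by simp)
    rcases lt_or_gt_of_ne hxy with hlt | hlt
    · exact ⟨x, y, hlt, h⟩
    · exact ⟨y, x, hlt, h.symm⟩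
  obtain ⟨L, hp, hq, hr, hs, hrel, hg, hg', hx⟩ := hW i j hij
  obtain ⟨xs, hlen, hnd, -, hreal⟩ := realise X (L.map (fun c => ![c.p, c.q, c.r, c.s]))
    (fun _ => 0) 0
  have hlen' : xs.length = L.length := by simpa using hlen
  set c0 := col X (W i) 0 with hc0
  have hP : X (emb xs (L.map Col.p)) = c0 := by
    have := hreal 0
    simp only [List.map_map, Function.comp_def, zero_add, Matrix.cons_val_zero] at this
    rw [this]
    exact col_congr X hp 0
  have hQ : X (emb xs (L.map Col.q)) = c0 := by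
    have := hreal 1
    simp only [List.map_map, Function.comp_def, zero_add, Matrix.cons_val_one,
      Matrix.cons_val_zero] at this
    rw [this]
    exact col_congr X hq 0
  have hR : X (emb xs (L.map Col.r)) = c0 := by
    have := hreal 2
    simp only [List.map_map, Function.comp_def, zero_add, Matrix.cons_val] at this
    rw [this, hcol]
    exact col_congr X hr 0
  have hS : X (emb xs (L.map Col.s)) = c0 := by
    have := hreal 3
    simp only [List.map_map, Function.comp_def, zero_add, Matrix.cons_val] at this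
    rw [this, hcol]
    exact col_congr X hs 0
  rw [hX] at hP hQ hR hS
  have eP := ulim_spec (fun n => χ n (WithLp.toLp 2 (fun i : Fin n => emb xs (L.map Col.p) i)))
  have eQ := ulim_spec (fun n => χ n (WithLp.toLp 2 (fun i : Fin n => emb xs (L.map Col.q) i)))
  have eR := ulim_spec (fun n => χ n (WithLp.toLp 2 (fun i : Fin n => emb xs (L.map Col.r) i)))
  have eS := ulim_spec (fun n => χ n (WithLp.toLp 2 (fun i : Fin n => emb xs (L.map Col.s) i)))
  have eN : ∀ᶠ n in (hyperfilter ℕ : Filter ℕ), 2 + xs.sum < n :=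
    Nat.hyperfilter_le_atTop (eventually_gt_atTop _)
  obtain ⟨n, hn, nP, nQ, nR, nS⟩ := (eN.and (eP.and (eQ.and (eR.and eS)))).exists
  rw [hP] at nP
  rw [hQ] at nQ
  rw [hR] at nR
  rw [hS] at nS
  have hxs : ∀ x ∈ xs, x < n := by
    intro x hx
    have := List.single_le_sum (fun y _ => Nat.zero_le y) x hx
    omega
  have h2n : 2 ≤ n := by omega
  -- the four points
  obtain ⟨P, hPd⟩ : ∃ P : EuclideanSpace ℝ (Fin n), P =
    WithLp.toLp 2 (fun i : Fin n => emb xs (L.map Col.p) i) := ⟨_, rfl⟩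
  obtain ⟨Q, hQd⟩ : ∃ P : EuclideanSpace ℝ (Fin n), P =
    WithLp.toLp 2 (fun i : Fin n => emb xs (L.map Col.q) i) := ⟨_, rfl⟩
  obtain ⟨R, hRd⟩ : ∃ P : EuclideanSpace ℝ (Fin n), P =
    WithLp.toLp 2 (fun i : Fin n => emb xs (L.map Col.r) i) := ⟨_, rfl⟩
  obtain ⟨S, hSd⟩ : ∃ P : EuclideanSpace ℝ (Fin n), P =
    WithLp.toLp 2 (fun i : Fin n => emb xs (L.map Col.s) i) := ⟨_, rfl⟩
  rw [← hPd] at nP
  rw [← hQd] at nQ
  rw [← hRd] at nR
  rw [← hSd] at nS
  have hPQ : P - Q = WithLp.toLp 2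
      (fun i : Fin n => emb xs (L.map (fun c => c.p - c.q)) i) := by
    have := emb_lin xs L Col.p Col.q 1 (-1)
    simp only [one_mul, neg_mul, ← sub_eq_add_neg, one_smul, neg_smul] at this
    rw [hPd, hQd, this]
    ext i
    simp
  have hRS : R - S = WithLp.toLp 2
      (fun i : Fin n => emb xs (L.map (fun c => c.r - c.s)) i) := by
    have := emb_lin xs L Col.r Col.s 1 (-1)
    simp only [one_mul, neg_mul, ← sub_eq_add_neg, one_smul, neg_smul] at this
    rw [hRd, hSd, this]
    ext i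
    simp
  have hcomb : α • P + β • Q = (1 / 2 : ℝ) • R + (1 / 2 : ℝ) • S := by
    have t1 := emb_lin xs L Col.p Col.q α β
    have t2 := emb_lin xs L Col.r Col.s (1 / 2) (1 / 2)
    have t3 : L.map (fun c => α * c.p + β * c.q) =
        L.map (fun c => 1 / 2 * c.r + 1 / 2 * c.s) := by
      apply List.map_congr_left
      intro c hc
      rw [hrel c hc]
      ring
    rw [t3, t2] at t1
    rw [hPd, hQd, hRd, hSd]
    ext i
    have := congrFun t1 (i : ℕ)
    simpa using this.symm
  have hlen2 : ∀ g : Col → ℝ, (L.map g).length = xs.length := by intro g; simp [hlen']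
  have iPP : inner ℝ (P - Q) (P - Q) = (4 : ℝ) := by
    rw [hPQ, PiLp.inner_apply, ← hg]
    have := emb_inner xs hnd (L.map (fun c => c.p - c.q)) (L.map (fun c => c.p - c.q)) n hxs
      (hlen2 _) (hlen2 _)
    simp only [List.zipWith_map, List.zipWith_self] at this
    simp only [RCLike.inner_apply, conj_trivial]
    rw [this]
    simp [sq, pow_two, Function.comp_def]
  have iRR : inner ℝ (R - S) (R - S) = 4 * α * β * 4 := by
    rw [hRS, PiLp.inner_apply, ← hg']
    have := emb_inner xs hnd (L.map (fun c => c.r - c.s)) (L.map (fun c => c.r - c.s)) n hxs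
      (hlen2 _) (hlen2 _)
    simp only [List.zipWith_map, List.zipWith_self] at this
    simp only [RCLike.inner_apply, conj_trivial]
    rw [this]
    simp [sq, pow_two, Function.comp_def]
  have iPR : inner ℝ (P - Q) (R - S) = (0 : ℝ) := by
    rw [hPQ, hRS, PiLp.inner_apply, ← hx]
    have := emb_inner xs hnd (L.map (fun c => c.p - c.q)) (L.map (fun c => c.r - c.s)) n hxs
      (hlen2 _) (hlen2 _)
    simp only [List.zipWith_map, List.zipWith_self] at this
    simp only [RCLike.inner_apply, conj_trivial]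
    rw [← this]
    apply Finset.sum_congr rfl
    intro i _
    ring
  obtain ⟨s, hsdef⟩ : ∃ s, s = Real.sqrt (1 - a ^ 2) := ⟨_, rfl⟩
  have ha2 : 0 < 1 - a ^ 2 := by nlinarith
  have hs0 : 0 < s := by rw [hsdef]; exact Real.sqrt_pos.2 ha2
  have hs2 : s ^ 2 = 1 - a ^ 2 := by rw [hsdef]; exact Real.sq_sqrt ha2.le
  have h4 : 4 * α * β = s ^ 2 := by rw [hs2, hα, hβ]; ring
  have he : ‖(1 / 2 : ℝ) • (P - Q)‖ = 1 := by
    have : ‖(1 / 2 : ℝ) • (P - Q)‖ ^ 2 = 1 := by
      rw [← real_inner_self_eq_norm_sq, inner_smul_left, inner_smul_right, iPP]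
      simp
      norm_num
    nlinarith [norm_nonneg ((1 / 2 : ℝ) • (P - Q))]
  have hf : ‖(1 / (2 * s)) • (R - S)‖ = 1 := by
    have : ‖(1 / (2 * s)) • (R - S)‖ ^ 2 = 1 := by
      rw [← real_inner_self_eq_norm_sq, inner_smul_left, inner_smul_right, iRR, h4]
      simp
      field_simp
      norm_num
    nlinarith [norm_nonneg ((1 / (2 * s)) • (R - S))]
  have hef : inner ℝ ((1 / 2 : ℝ) • (P - Q)) ((1 / (2 * s)) • (R - S)) = 0 := by
    rw [inner_smul_left, inner_smul_right, iPR]
    simp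
  have e1 : (1 / 2 : ℝ) • (P + Q) + a • ((1 / 2 : ℝ) • (P - Q)) = α • P + β • Q := by
    rw [hα, hβ]
    module
  have e2 : s • ((1 / (2 * s)) • (R - S)) = (1 / 2 : ℝ) • (R - S) := by
    rw [smul_smul]
    congr 1
    field_simp
  have hPexp : (1 / 2 : ℝ) • (P + Q) + ((1 / 2 : ℝ) • (P - Q)) = P := by module
  have hQexp : (1 / 2 : ℝ) • (P + Q) - ((1 / 2 : ℝ) • (P - Q)) = Q := by module
  have hRexp : (1 / 2 : ℝ) • (P + Q) + a • ((1 / 2 : ℝ) • (P - Q)) +
      s • ((1 / (2 * s)) • (R - S)) = R := by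
    rw [e1, e2, hcomb]
    module
  have hSexp : (1 / 2 : ℝ) • (P + Q) + a • ((1 / 2 : ℝ) • (P - Q)) -
      s • ((1 / (2 * s)) • (R - S)) = S := by
    rw [e1, e2, hcomb]
    module
  refine hχ n h2n c0 ((1 / 2 : ℝ) • (P + Q)) ((1 / 2 : ℝ) • (P - Q))
    ((1 / (2 * s)) • (R - S)) he hf hef ?_ ?_ ?_ ?_
  · rw [hPexp]; exact nP
  · rw [hQexp]; exact nQ
  · rw [← hsdef, hRexp]; exact nR
  · rw [← hsdef, hSexp]; exact nS

end Pool.Agent.Helper24.Kite
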